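import Pool.Agent.H63.NS.Defs

/-!
Finite averages `av s f = (1/|s|) sum_(i in s) f i` with values in a real vector space, the one
coordinate average `A1`, the iterated average `AvL` over a list of coordinates, and uniform means
`UMat`.
-/

set_option autoImplicit false

open MeasureTheory Finset
open scoped BigOperators

namespace Pool.Agent.H63.NS

section av

variable {ι κ : Type*} {V W : Type*} [AddCommGroup V] [Module ℝ V] [AddCommGroup W] [Module ℝ W]

/-- the average of `f` over the finite set `s` -/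
noncomputable def av (s : Finset ι) (f : ι → V) : V := ((s.card : ℝ)⁻¹) • ∑ i ∈ s, f i

lemma av_congr {s : Finset ι} {f g : ι → V} (h : ∀ i ∈ s, f i = g i) : av s f = av s g := by
  unfold av; rw [sum_congr rfl h]

lemma av_add (s : Finset ι) (f g : ι → V) : av s (fun i => f i + g i) = av s f + av s g := by
  unfold av; rw [sum_add_distrib, smul_add]

lemma av_sub (s : Finset ι) (f g : ι → V) : av s (fun i => f i - g i) = av s f - av s g := by
  unfold av; rw [sum_sub_distrib, smul_sub]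

lemma av_smul (s : Finset ι) (c : ℝ) (f : ι → V) : av s (fun i => c • f i) = c • av s f := by
  unfold av; rw [← smul_sum, smul_comm]

lemma av_const {s : Finset ι} (hs : s.Nonempty) (v : V) : av s (fun _ => v) = v := by
  unfold av
  rw [sum_const, ← Nat.cast_smul_eq_nsmul ℝ, smul_smul, inv_mul_cancel₀, one_smul]
  exact Nat.cast_ne_zero.mpr (Finset.card_pos.mpr hs).ne'

lemma map_av (L : V →ₗ[ℝ] W) (s : Finset ι) (f : ι → V) : L (av s f) = av s (fun i => L (f i)) := by
  unfold av; rw [map_smul, map_sum]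

lemma av_comm (s : Finset ι) (t : Finset κ) (f : ι → κ → V) :
    av s (fun i => av t (fun j => f i j)) = av t (fun j => av s (fun i => f i j)) := by
  unfold av
  rw [← smul_sum, ← smul_sum, sum_comm, smul_comm]

lemma av_product (s : Finset ι) (t : Finset κ) (f : ι × κ → V) :
    av (s ×ˢ t) f = av s (fun i => av t (fun j => f (i, j))) := by
  unfold av
  rw [← smul_sum, smul_smul, sum_product, card_product, Nat.cast_mul, mul_inv]

lemma av_mul (s : Finset ι) (c : ℝ) (f : ι → ℝ) : av s (fun i => c * f i) = c * av s f := by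
  simpa using av_smul s c f

lemma av_mul_right (s : Finset ι) (c : ℝ) (f : ι → ℝ) : av s (fun i => f i * c) = av s f * c := by
  rw [mul_comm (av s f) c, ← av_mul]; exact av_congr (fun i _ => mul_comm _ _)

lemma av_nonneg {s : Finset ι} {f : ι → ℝ} (h : ∀ i ∈ s, 0 ≤ f i) : 0 ≤ av s f := by
  unfold av
  rw [smul_eq_mul]
  exact mul_nonneg (by positivity) (sum_nonneg h)

lemma av_mono {s : Finset ι} {f g : ι → ℝ} (h : ∀ i ∈ s, f i ≤ g i) : av s f ≤ av s g := by
  have h1 := av_nonneg (s := s) (f := fun i => g i - f i) (fun i hi => sub_nonneg.mpr (h i hi))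
  rw [av_sub] at h1
  linarith

lemma av_le {s : Finset ι} (hs : s.Nonempty) {f : ι → ℝ} {C : ℝ} (h : ∀ i ∈ s, f i ≤ C) : av s f ≤ C := by
  have := av_mono h
  rwa [av_const hs] at this

lemma abs_av_le_av (s : Finset ι) (f : ι → ℝ) : |av s f| ≤ av s (fun i => |f i|) := by
  unfold av
  rw [smul_eq_mul, smul_eq_mul, abs_mul, abs_of_nonneg (by positivity : (0 : ℝ) ≤ (s.card : ℝ)⁻¹)]
  exact mul_le_mul_of_nonneg_left (abs_sum_le_sum_abs _ _) (by positivity)

lemma abs_av_le {s : Finset ι} (hs : s.Nonempty) {f : ι → ℝ} {C : ℝ} (h : ∀ i ∈ s, |f i| ≤ C) : |av s f| ≤ C :=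
  (abs_av_le_av s f).trans (av_le hs h)

/-- the average of a function bounded by `C` is bounded by `C` (also for empty index sets if `0 ≤ C`) -/
lemma abs_av_le' {s : Finset ι} {f : ι → ℝ} {C : ℝ} (hC : 0 ≤ C) (h : ∀ i ∈ s, |f i| ≤ C) : |av s f| ≤ C := by
  rcases s.eq_empty_or_nonempty with rfl | hs
  · simpa [av] using hC
  · exact abs_av_le hs h

lemma av_sq_le (s : Finset ι) (f : ι → ℝ) : (av s f) ^ 2 ≤ av s (fun i => f i ^ 2) := by
  rcases s.eq_empty_or_nonempty with rfl | hs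
  · simp [av]
  · have h : 0 ≤ av s (fun i => (f i - av s f) ^ 2) := av_nonneg (fun i _ => by positivity)
    have e : av s (fun i => (f i - av s f) ^ 2) = av s (fun i => f i ^ 2) - (av s f) ^ 2 := by
      have e1 : (fun i => (f i - av s f) ^ 2) = fun i => (f i ^ 2 - (2 * av s f) * f i) + (av s f) ^ 2 := by
        funext i; ring
      rw [e1, av_add, av_sub, av_mul, av_const hs]
      ring
    rw [e] at h
    linarith

end av

section coords

/-- one coordinate average: mesh `2^(-k)`, length `K` -/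
noncomputable def A1 (k K d : ℕ) (ψ : (ℕ → ℝ) → ℝ) (z : ℕ → ℝ) : ℝ :=
  av (range (K * 2 ^ k)) (fun m => ψ (Function.update z d (z d + (m : ℝ) / 2 ^ k)))

/-- iterated average over the coordinates in the list `l`; coordinate `d` has mesh `2^(-k d)` and
length `K d` -/
noncomputable def AvL (k K : ℕ → ℕ) : List ℕ → ((ℕ → ℝ) → ℝ) → (ℕ → ℝ) → ℝ
  | [], ψ => ψ
  | d :: l, ψ => A1 (k d) (K d) d (AvL k K l ψ)

/-- `m` is the uniform mean of `ψ` over the coordinates in `l`, the others being fixed by `z` -/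
def UMat (l : List ℕ) (ψ : (ℕ → ℝ) → ℝ) (z : ℕ → ℝ) (m : ℝ) : Prop :=
  ∀ ε : ℝ, 0 < ε → ∃ L : ℕ, ∀ k K : ℕ → ℕ, (∀ d ∈ l, L ≤ k d) → (∀ d ∈ l, L ≤ K d) →
    ∀ z' : ℕ → ℝ, (∀ d, d ∉ l → z' d = z d) → |AvL k K l ψ z' - m| ≤ ε

end coords

section adm

variable {Y : Type} [MeasurableSpace Y] {ν : Measure Y} [IsProbabilityMeasure ν]

/-- value of the integer linear form `L` at `z` -/
noncomputable def ev (L : ℕ →₀ ℤ) (z : ℕ → ℝ) : ℝ := L.sum (fun d c => (c : ℝ) * z d)

/-- `Adm F ψ`: `ψ z = I (prod_j T(ev (L j) z + o j) (f j))` with good `f j` -/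
def Adm (F : Flow ν) (ψ : (ℕ → ℝ) → ℝ) : Prop :=
  ∃ (n : ℕ) (L : Fin n → (ℕ →₀ ℤ)) (o : Fin n → ℝ) (f : Fin n → BM Y), (∀ j, F.Good (f j)) ∧
    ∀ z, ψ z = I ν (∏ j, F.T (ev (L j) z + o j) (f j))

end adm

end Pool.Agent.H63.NS
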