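import Pool.Agent.H63.NS.Av

/-!
The arithmetic data used by the PET induction (MP_3ea55a_an).
-/

set_option autoImplicit false

open MeasureTheory Finset Filter Topology
open scoped BigOperators

namespace Pool.Agent.H63.NS

/-- `n sin n` -/
noncomputable def uu (n : ℕ) : ℝ := (n : ℝ) * Real.sin n

/-- the arithmetic data along an ultrafilter -/
structure NumData (𝒰 : Ultrafilter ℕ) where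
  q1 : ℕ → ℕ
  qs : ℕ → ℕ
  b : ℕ → ℕ → ℝ
  c : ℕ → ℕ → ℝ
  η : ℕ → ℕ → ℝ
  C : ℝ
  q1_small : ∀ ε : ℝ, 0 < ε → ∀ᶠ N in (𝒰 : Filter ℕ), (q1 N : ℝ) ≤ ε * N
  qs_small : ∀ ε : ℝ, 0 < ε → ∀ᶠ N in (𝒰 : Filter ℕ), (qs N : ℝ) ≤ ε * N
  u_q1 : ∀ k : ℕ, ∀ ε : ℝ, 0 < ε → ∀ᶠ N in (𝒰 : Filter ℕ), ∀ n < 2 * N,
    |uu (n + k * q1 N) - (uu n + k * b N n + k ^ 2 * c N n)| ≤ ε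
  b_q1 : ∀ k : ℕ, ∀ ε : ℝ, 0 < ε → ∀ᶠ N in (𝒰 : Filter ℕ), ∀ n < 2 * N,
    |b N (n + k * q1 N) - (b N n + 2 * k * c N n)| ≤ ε
  b_qs : ∀ k : ℕ, ∀ ε : ℝ, 0 < ε → ∀ᶠ N in (𝒰 : Filter ℕ), ∀ n < 2 * N,
    |b N (n + k * qs N) - (b N n + k * η N n)| ≤ ε
  c_q1 : ∀ ε : ℝ, 0 < ε → ∀ᶠ N in (𝒰 : Filter ℕ), ∀ n < 2 * N, |c N (n + q1 N) - c N n| ≤ ε
  c_qs : ∀ ε : ℝ, 0 < ε → ∀ᶠ N in (𝒰 : Filter ℕ), ∀ n < 2 * N, |c N (n + qs N) - c N n| ≤ ε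
  e_q1 : ∀ ε : ℝ, 0 < ε → ∀ᶠ N in (𝒰 : Filter ℕ), ∀ n < 2 * N, |η N (n + q1 N) - η N n| ≤ ε
  e_qs : ∀ ε : ℝ, 0 < ε → ∀ᶠ N in (𝒰 : Filter ℕ), ∀ n < 2 * N, |η N (n + qs N) - η N n| ≤ ε
  bdd : ∀ᶠ N in (𝒰 : Filter ℕ), ∀ n < 4 * N, |c N n| ≤ C ∧ |η N n| ≤ C ∧ |b N n| ≤ C * N
  ed : ∀ (ρ : ℝ → ℝ) (m : ℝ), (∀ a, |ρ a| ≤ 1) →
    (∀ ε : ℝ, 0 < ε → ∃ δ : ℝ, 0 < δ ∧ ∀ a a' : ℝ, |a - a'| ≤ δ → |ρ a - ρ a'| ≤ ε) →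
    (∀ ε : ℝ, 0 < ε → ∃ L : ℕ, ∀ k ≥ L, ∀ K ≥ L, ∀ x : ℝ,
        |av (range (K * 2 ^ k)) (fun i => ρ (x + (i : ℝ) / 2 ^ k)) - m| ≤ ε) →
    ∀ ε : ℝ, 0 < ε → ∃ k0 : ℕ, ∀ k ≥ k0, ∀ᶠ N in (𝒰 : Filter ℕ),
      |av (range N) (fun n => ρ (k * η N n)) - m| ≤ ε

end Pool.Agent.H63.NS
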