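import Pool.Agent.H63.NS.Fam

/-!
Positivity and linearity of the iterated average `AvL`; van der Corput inequality in finite form.
-/

set_option autoImplicit false

open MeasureTheory Finset
open scoped BigOperators

namespace Pool.Agent.H63.NS.P4

open Pool.Agent.H63.NS

variable {k K : ℕ → ℕ}

lemma a1_add (a b d : ℕ) (ψ χ : (ℕ → ℝ) → ℝ) (z : ℕ → ℝ) :
    A1 a b d (fun z => ψ z + χ z) z = A1 a b d ψ z + A1 a b d χ z := av_add _ _ _

lemma a1_smul (a b d : ℕ) (c : ℝ) (ψ : (ℕ → ℝ) → ℝ) (z : ℕ → ℝ) :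
    A1 a b d (fun z => c * ψ z) z = c * A1 a b d ψ z := av_mul _ _ _

lemma a1_mono (a b d : ℕ) {ψ χ : (ℕ → ℝ) → ℝ} (h : ∀ z, ψ z ≤ χ z) (z : ℕ → ℝ) :
    A1 a b d ψ z ≤ A1 a b d χ z := av_mono (fun _ _ => h _)

lemma avl_add (l : List ℕ) (ψ χ : (ℕ → ℝ) → ℝ) (z : ℕ → ℝ) :
    AvL k K l (fun z => ψ z + χ z) z = AvL k K l ψ z + AvL k K l χ z := by
  induction l generalizing z with
  | nil => rfl
  | cons d l ih =>
    show A1 _ _ d (AvL k K l (fun z => ψ z + χ z)) z = A1 _ _ d (AvL k K l ψ) z + A1 _ _ d (AvL k K l χ) z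
    rw [← a1_add]
    congr 1
    funext z
    exact ih z

lemma avl_smul (l : List ℕ) (c : ℝ) (ψ : (ℕ → ℝ) → ℝ) (z : ℕ → ℝ) :
    AvL k K l (fun z => c * ψ z) z = c * AvL k K l ψ z := by
  induction l generalizing z with
  | nil => rfl
  | cons d l ih =>
    show A1 _ _ d (AvL k K l (fun z => c * ψ z)) z = c * A1 _ _ d (AvL k K l ψ) z
    rw [← a1_smul]
    congr 1
    funext z
    exact ih z

lemma avl_sub (l : List ℕ) (ψ χ : (ℕ → ℝ) → ℝ) (z : ℕ → ℝ) :
    AvL k K l (fun z => ψ z - χ z) z = AvL k K l ψ z - AvL k K l χ z := by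
  have h := avl_add (k := k) (K := K) l ψ (fun z => (-1) * χ z) z
  rw [avl_smul] at h
  have e : (fun z => ψ z - χ z) = fun z => ψ z + (-1) * χ z := by funext z; ring
  rw [e, h]; ring

lemma avl_mono (l : List ℕ) {ψ χ : (ℕ → ℝ) → ℝ} (h : ∀ z, ψ z ≤ χ z) (z : ℕ → ℝ) :
    AvL k K l ψ z ≤ AvL k K l χ z := by
  induction l generalizing z with
  | nil => exact h z
  | cons d l ih => exact a1_mono _ _ _ (fun z => ih z) z

/-- monotonicity using only the points which agree with `z` off `l` -/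
lemma avl_mono' (l : List ℕ) {ψ χ : (ℕ → ℝ) → ℝ} (z : ℕ → ℝ)
    (h : ∀ z', (∀ d, d ∉ l → z' d = z d) → ψ z' ≤ χ z') : AvL k K l ψ z ≤ AvL k K l χ z := by
  induction l generalizing z with
  | nil => exact h z (fun _ _ => rfl)
  | cons d l ih =>
    refine av_mono (fun m _ => ih _ (fun z' hz' => h z' (fun e he => ?_)))
    rw [List.mem_cons, not_or] at he
    rw [hz' e he.2, Function.update_of_ne he.1]

lemma avl_const (l : List ℕ) (hK : ∀ d ∈ l, 0 < K d) (c : ℝ) (z : ℕ → ℝ) :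
    AvL k K l (fun _ => c) z = c := by
  induction l generalizing z with
  | nil => rfl
  | cons d l ih =>
    show A1 _ _ d (AvL k K l (fun _ => c)) z = c
    have e : AvL k K l (fun _ => c) = fun _ => c := by
      funext z; exact ih (fun d hd => hK d (List.mem_cons_of_mem _ hd)) z
    rw [e]
    refine av_const ?_ c
    rw [nonempty_range_iff]
    have := hK d List.mem_cons_self
    positivity

lemma avl_le (l : List ℕ) (hK : ∀ d ∈ l, 0 < K d) {ψ : (ℕ → ℝ) → ℝ} {C : ℝ} (h : ∀ z, ψ z ≤ C)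
    (z : ℕ → ℝ) : AvL k K l ψ z ≤ C := by
  have := avl_mono (k := k) (K := K) l (χ := fun _ => C) h z
  rwa [avl_const l hK] at this

lemma avl_nonneg (l : List ℕ) {ψ : (ℕ → ℝ) → ℝ} (h : ∀ z, 0 ≤ ψ z) (z : ℕ → ℝ) : 0 ≤ AvL k K l ψ z := by
  induction l generalizing z with
  | nil => exact h z
  | cons d l ih => exact av_nonneg (fun _ _ => ih _)

lemma abs_avl_le (l : List ℕ) (hK : ∀ d ∈ l, 0 < K d) {ψ : (ℕ → ℝ) → ℝ} {C : ℝ} (h : ∀ z, |ψ z| ≤ C)
    (z : ℕ → ℝ) : |AvL k K l ψ z| ≤ C := by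
  rw [abs_le]
  constructor
  · have := avl_le (k := k) (K := K) l hK (ψ := fun z => (-1) * ψ z) (C := C)
      (fun z => by have := neg_abs_le (ψ z); have := h z; linarith) z
    rw [avl_smul] at this
    linarith
  · exact avl_le l hK (fun z => (le_abs_self _).trans (h z)) z

/-- closeness -/
lemma abs_avl_sub_le (l : List ℕ) (hK : ∀ d ∈ l, 0 < K d) {ψ χ : (ℕ → ℝ) → ℝ} {C : ℝ}
    (h : ∀ z, |ψ z - χ z| ≤ C) (z : ℕ → ℝ) : |AvL k K l ψ z - AvL k K l χ z| ≤ C := by
  rw [← avl_sub]; exact abs_avl_le l hK h z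

lemma avl_sq_le (l : List ℕ) (ψ : (ℕ → ℝ) → ℝ) (z : ℕ → ℝ) :
    (AvL k K l ψ z) ^ 2 ≤ AvL k K l (fun z => ψ z ^ 2) z := by
  induction l generalizing z with
  | nil => exact le_rfl
  | cons d l ih =>
    refine (av_sq_le _ _).trans (av_mono (fun m _ => ih _))

lemma avl_av {ι : Type*} (l : List ℕ) (s : Finset ι) (ψ : ι → (ℕ → ℝ) → ℝ) (z : ℕ → ℝ) :
    AvL k K l (fun z => av s (fun i => ψ i z)) z = av s (fun i => AvL k K l (ψ i) z) := by
  induction l generalizing z with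
  | nil => rfl
  | cons d l ih =>
    show A1 _ _ d (AvL k K l (fun z => av s (fun i => ψ i z))) z = av s (fun i => A1 _ _ d (AvL k K l (ψ i)) z)
    have e : AvL k K l (fun z => av s (fun i => ψ i z)) = fun z => av s (fun i => AvL k K l (ψ i) z) := by
      funext z; exact ih z
    rw [e]
    exact av_comm _ _ _

lemma avl_sum {ι : Type*} (l : List ℕ) (s : Finset ι) (ψ : ι → (ℕ → ℝ) → ℝ) (z : ℕ → ℝ) :
    AvL k K l (fun z => ∑ i ∈ s, ψ i z) z = ∑ i ∈ s, AvL k K l (ψ i) z := by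
  classical
  induction s using Finset.induction_on with
  | empty =>
    simp only [sum_empty]
    have := avl_smul (k := k) (K := K) l 0 (fun _ => 0) z
    simpa using this
  | insert i s hi ih =>
    simp only [sum_insert hi]
    rw [avl_add, ih]

/-- a coordinate on which `ψ` does not depend can be dropped -/
lemma avl_indep {ψ : (ℕ → ℝ) → ℝ} {c : ℕ} (h : ∀ z x, ψ (Function.update z c x) = ψ z) (l : List ℕ)
    (z : ℕ → ℝ) (x : ℝ) : AvL k K l ψ (Function.update z c x) = AvL k K l ψ z := by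
  classical
  induction l generalizing z x with
  | nil => exact h z x
  | cons d l ih =>
    show A1 _ _ d (AvL k K l ψ) _ = A1 _ _ d (AvL k K l ψ) z
    unfold A1
    by_cases hd : d = c
    · subst hd
      refine av_congr (fun m _ => ?_)
      rw [ih, ih]
      rw [ih]
    · refine av_congr (fun m _ => ?_)
      rw [Function.update_of_ne hd, Function.update_comm (Ne.symm hd), ih]

lemma avl_cons_indep {ψ : (ℕ → ℝ) → ℝ} {c : ℕ} (h : ∀ z x, ψ (Function.update z c x) = ψ z) (l : List ℕ)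
    (hK : 0 < K c) (z : ℕ → ℝ) : AvL k K (c :: l) ψ z = AvL k K l ψ z := by
  show A1 _ _ c (AvL k K l ψ) z = _
  unfold A1
  have e : (fun m : ℕ => AvL k K l ψ (Function.update z c (z c + (m : ℝ) / 2 ^ k c))) =
      fun _ => AvL k K l ψ z := by
    funext m; exact avl_indep h l z _
  rw [e]
  refine av_const ?_ _
  rw [nonempty_range_iff]
  positivity

/-! ### van der Corput -/

section vdc

variable {Y : Type} [MeasurableSpace Y] {ν : Measure Y} [IsProbabilityMeasure ν]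

/-- shifting an average over `range N` -/
lemma abs_av_shift_le (N s : ℕ) (x : ℕ → ℝ) (C : ℝ) (hx : ∀ m, |x m| ≤ C) :
    |av (range N) (fun m => x (m + s)) - av (range N) x| ≤ 2 * C * s / N := by
  have hC : 0 ≤ C := (abs_nonneg _).trans (hx 0)
  rcases Nat.eq_zero_or_pos N with rfl | hN
  · simp [av]
  have hN' : (0 : ℝ) < N := Nat.cast_pos.mpr hN
  have e1 : ∑ m ∈ range (N + s), x m = ∑ m ∈ range N, x m + ∑ m ∈ range s, x (N + m) := sum_range_add _ _ _
  have e2 : ∑ m ∈ range (s + N), x m = ∑ m ∈ range s, x m + ∑ m ∈ range N, x (s + m) := sum_range_add _ _ _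
  rw [add_comm s N] at e2
  have e3 : ∑ m ∈ range N, x (m + s) - ∑ m ∈ range N, x m = ∑ m ∈ range s, x (N + m) - ∑ m ∈ range s, x m := by
    have e4 : ∑ m ∈ range N, x (m + s) = ∑ m ∈ range N, x (s + m) :=
      sum_congr rfl (fun m _ => by rw [add_comm])
    rw [e4]; linarith
  unfold av
  rw [smul_eq_mul, smul_eq_mul, ← mul_sub, e3, card_range, abs_mul, abs_of_pos (inv_pos.mpr hN')]
  have h5 : |∑ m ∈ range s, x (N + m)| ≤ s * C := by
    refine (abs_sum_le_sum_abs _ _).trans ?_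
    refine (sum_le_sum (fun m _ => hx (N + m))).trans ?_
    rw [sum_const, card_range, nsmul_eq_mul]
  have h6 : |∑ m ∈ range s, x m| ≤ s * C := by
    refine (abs_sum_le_sum_abs _ _).trans ?_
    refine (sum_le_sum (fun m _ => hx m)).trans ?_
    rw [sum_const, card_range, nsmul_eq_mul]
  have h7 : |∑ m ∈ range s, x (N + m) - ∑ m ∈ range s, x m| ≤ 2 * C * s := by
    refine (abs_sub _ _).trans ?_
    linarith
  rw [inv_mul_le_iff₀ hN']
  calc _ ≤ 2 * C * s := h7
    _ = N * (2 * C * s / N) := by field_simp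

end vdc

end Pool.Agent.H63.NS.P4
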