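import Pool.Agent.H43.NS.Num
import Pool.Agent.H70.NS.Ed

/-!
The arithmetic data exist along every ultrafilter.
-/

set_option autoImplicit false

open MeasureTheory Finset Filter Topology
open scoped BigOperators

namespace Pool.Agent.H63.NS

theorem num_data (𝒰 : Ultrafilter ℕ) (h : (𝒰 : Filter ℕ) ≤ atTop) : Nonempty (NumData 𝒰) :=
  Pool.Agent.H43.NS.num_data_of h (fun q p AN BN A B hA hB hAB hd hg hq0 hq1 ρ m h1 h2 h3 =>
    Pool.Agent.H70.NS.ed_of 𝒰 h q p AN BN A B hA hB hAB hd hg hq0 hq1 ρ m h1 h2 h3)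

end Pool.Agent.H63.NS
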