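import Pool.Agent.H63.NS.Av

/-!
Common lemmas: linear forms `ev`, products of shifted good functions, uniform continuity in the
exponents, admissible vector valued functions `AdmG`, integer affine substitutions `AffI`.
-/

set_option autoImplicit false

open MeasureTheory Finset
open scoped BigOperators

namespace Pool.Agent.H63.NS

/-! ### linear forms -/

lemma ev_eq_sum (L : ℕ →₀ ℤ) (z : ℕ → ℝ) {s : Finset ℕ} (hs : L.support ⊆ s) :
    ev L z = ∑ d ∈ s, (L d : ℝ) * z d := by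
  unfold ev Finsupp.sum
  refine sum_subset hs (fun d _ hd => ?_)
  rw [Finsupp.notMem_support_iff.mp hd]; simp

lemma ev_zero (z : ℕ → ℝ) : ev 0 z = 0 := by simp [ev]

lemma ev_add (L M : ℕ →₀ ℤ) (z : ℕ → ℝ) : ev (L + M) z = ev L z + ev M z := by
  classical
  rw [ev_eq_sum (L + M) z (s := L.support ∪ M.support) Finsupp.support_add,
    ev_eq_sum L z (s := L.support ∪ M.support) subset_union_left,
    ev_eq_sum M z (s := L.support ∪ M.support) subset_union_right, ← sum_add_distrib]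
  refine sum_congr rfl (fun d _ => ?_)
  simp only [Finsupp.coe_add, Pi.add_apply, Int.cast_add]
  ring

lemma ev_neg (L : ℕ →₀ ℤ) (z : ℕ → ℝ) : ev (-L) z = -ev L z := by
  have h := ev_add L (-L) z
  rw [add_neg_cancel, ev_zero] at h
  linarith

lemma ev_sub (L M : ℕ →₀ ℤ) (z : ℕ → ℝ) : ev (L - M) z = ev L z - ev M z := by
  rw [sub_eq_add_neg, ev_add, ev_neg]; ring

lemma ev_single (d : ℕ) (c : ℤ) (z : ℕ → ℝ) : ev (Finsupp.single d c) z = c * z d := by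
  unfold ev
  rw [Finsupp.sum_single_index]
  simp

lemma ev_update (L : ℕ →₀ ℤ) (z : ℕ → ℝ) (d : ℕ) (x : ℝ) :
    ev L (Function.update z d x) = ev L z + L d * (x - z d) := by
  classical
  have hs : L.support ⊆ insert d L.support := subset_insert _ _
  rw [ev_eq_sum L _ hs, ev_eq_sum L z hs, ← Finset.add_sum_erase _ _ (mem_insert_self d L.support),
    ← Finset.add_sum_erase _ _ (mem_insert_self d L.support)]
  have e : ∑ x_1 ∈ (insert d L.support).erase d, (L x_1 : ℝ) * Function.update z d x x_1 =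
      ∑ x ∈ (insert d L.support).erase d, (L x : ℝ) * z x := by
    refine sum_congr rfl (fun i hi => ?_)
    rw [Function.update_of_ne (ne_of_mem_erase hi)]
  rw [e, Function.update_self]
  ring

/-- add `t` to coordinate `d` -/
noncomputable def ad (d : ℕ) (t : ℝ) (z : ℕ → ℝ) : ℕ → ℝ := Function.update z d (z d + t)

lemma ev_ad (L : ℕ →₀ ℤ) (z : ℕ → ℝ) (d : ℕ) (t : ℝ) : ev L (ad d t z) = ev L z + L d * t := by
  unfold ad; rw [ev_update]; ring

/-- the unipotent map `(u, b) -> (u + k b + k^2 x, b + 2 k x)` -/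
noncomputable def gk (k : ℕ) (x : ℝ) (z : ℕ → ℝ) : ℕ → ℝ :=
  Function.update (Function.update z 0 (z 0 + k * z 1 + k ^ 2 * x)) 1 (z 1 + 2 * k * x)

lemma ev_gk (L : ℕ →₀ ℤ) (k : ℕ) (x : ℝ) (z : ℕ → ℝ) :
    ev L (gk k x z) = ev L z + L 0 * (k * z 1 + k ^ 2 * x) + L 1 * (2 * k * x) := by
  unfold gk
  rw [ev_update, ev_update, Function.update_of_ne one_ne_zero]
  ring

/-- integer affine substitutions -/
def AffI (Φ : (ℕ → ℝ) → (ℕ → ℝ)) : Prop :=
  ∀ L : ℕ →₀ ℤ, ∃ (L' : ℕ →₀ ℤ) (o : ℝ), ∀ z, ev L (Φ z) = ev L' z + o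

lemma AffI.id : AffI (fun z => z) := fun L => ⟨L, 0, fun z => by simp⟩

lemma AffI.comp {Φ Θ : (ℕ → ℝ) → (ℕ → ℝ)} (h : AffI Φ) (h' : AffI Θ) : AffI (fun z => Φ (Θ z)) := by
  intro L
  obtain ⟨L1, o1, h1⟩ := h L
  obtain ⟨L2, o2, h2⟩ := h' L1
  exact ⟨L2, o2 + o1, fun z => by rw [h1, h2]; ring⟩

lemma affI_ad (d : ℕ) (t : ℝ) : AffI (ad d t) := fun L => ⟨L, L d * t, fun z => ev_ad L z d t⟩

/-- adding an integer multiple of the coordinate `c` (and a constant) to the coordinate `d` -/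
lemma affI_adc (d c : ℕ) (k : ℤ) (t : ℝ) : AffI (fun z => ad d (k * z c + t) z) := fun L =>
  ⟨L + Finsupp.single c (L d * k), L d * t, fun z => by
    rw [ev_ad, ev_add, ev_single]; push_cast; ring⟩

lemma affI_adc' (d c : ℕ) : AffI (fun z => ad d (z c) z) := by
  have h := affI_adc d c 1 0
  have e : (fun z : ℕ → ℝ => ad d (((1 : ℤ) : ℝ) * z c + 0) z) = fun z => ad d (z c) z := by
    funext z; simp
  rwa [e] at h

lemma affI_gk (k : ℕ) (x : ℝ) : AffI (gk k x) := fun L =>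
  ⟨L + Finsupp.single 1 (L 0 * k), L 0 * (k ^ 2 * x) + L 1 * (2 * k * x), fun z => by
    rw [ev_gk, ev_add, ev_single]; push_cast; ring⟩

section fam

variable {Y : Type} [MeasurableSpace Y] {ν : Measure Y} [IsProbabilityMeasure ν]

/-! ### products -/

lemma abs_prod_le_one {ι : Type*} (s : Finset ι) (a : ι → ℝ) (h : ∀ i ∈ s, |a i| ≤ 1) :
    |∏ i ∈ s, a i| ≤ 1 := by
  rw [Finset.abs_prod]
  exact prod_le_one (fun i _ => abs_nonneg _) h

lemma abs_prod_sub_prod_le {ι : Type*} (s : Finset ι) (a b : ι → ℝ) (ha : ∀ i ∈ s, |a i| ≤ 1)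
    (hb : ∀ i ∈ s, |b i| ≤ 1) : |∏ i ∈ s, a i - ∏ i ∈ s, b i| ≤ ∑ i ∈ s, |a i - b i| := by
  classical
  induction s using Finset.induction_on with
  | empty => simp
  | insert j s hj ih =>
    rw [prod_insert hj, prod_insert hj, sum_insert hj]
    have ih' := ih (fun i hi => ha i (mem_insert_of_mem hi)) (fun i hi => hb i (mem_insert_of_mem hi))
    have h1 : |∏ i ∈ s, a i| ≤ 1 := abs_prod_le_one s a (fun i hi => ha i (mem_insert_of_mem hi))
    have h2 : |b j| ≤ 1 := hb j (mem_insert_self _ _)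
    have e : a j * ∏ i ∈ s, a i - b j * ∏ i ∈ s, b i =
        (a j - b j) * ∏ i ∈ s, a i + b j * (∏ i ∈ s, a i - ∏ i ∈ s, b i) := by ring
    rw [e]
    refine (abs_add_le _ _).trans (add_le_add ?_ ?_)
    · rw [abs_mul]
      exact mul_le_of_le_one_right (abs_nonneg _) h1
    · rw [abs_mul]
      exact (mul_le_of_le_one_left (abs_nonneg _) h2).trans ih'

/-- `|prod| <= 1` in `BM` -/
lemma bm_prod_bdd {ι : Type*} (s : Finset ι) (A : ι → BM Y)
    (h : ∀ i ∈ s, ∀ y, |(A i : Y → ℝ) y| ≤ 1) (y : Y) : |((∏ i ∈ s, A i : BM Y) : Y → ℝ) y| ≤ 1 := by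
  rw [BM.prod_ap]
  exact abs_prod_le_one s _ (fun i hi => h i hi y)

lemma I_abs_prod_sub_le {ι : Type*} (s : Finset ι) (A B : ι → BM Y)
    (ha : ∀ i ∈ s, ∀ y, |(A i : Y → ℝ) y| ≤ 1) (hb : ∀ i ∈ s, ∀ y, |(B i : Y → ℝ) y| ≤ 1) :
    I ν (babs (∏ i ∈ s, A i - ∏ i ∈ s, B i)) ≤ ∑ i ∈ s, I ν (babs (A i - B i)) := by
  rw [← map_sum]
  refine I_mono ν (fun y => ?_)
  rw [babs_ap, BM.sub_ap, BM.prod_ap, BM.prod_ap, BM.sum_ap]
  exact abs_prod_sub_prod_le s _ _ (fun i hi => ha i hi y) (fun i hi => hb i hi y)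

lemma Flow.Good.bddT {F : Flow ν} {f : BM Y} (h : F.Good f) (a : ℝ) (y : Y) :
    |(F.T a f : Y → ℝ) y| ≤ 1 := h.1 _

lemma Flow.Good.unif {F : Flow ν} {f : BM Y} (h : F.Good f) (ε : ℝ) (hε : 0 < ε) :
    ∃ δ : ℝ, 0 < δ ∧ ∀ x x' : ℝ, |x - x'| ≤ δ → I ν (babs (F.T x f - F.T x' f)) ≤ ε := by
  obtain ⟨δ, hδ, H⟩ := h.2 ε hε
  refine ⟨δ, hδ, fun x x' hx => ?_⟩
  have e : F.T x f - F.T x' f = F.T x' (F.T (x - x') f - f) := by
    rw [map_sub, F.T_T]; congr 2; ring_nf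
  rw [e, ← F.T_abs, F.I_T]
  exact H _ hx

/-- uniform continuity of the product in the exponents, L1 norm -/
lemma prod_unif (F : Flow ν) {ι : Type*} [Fintype ι] (f : ι → BM Y) (hf : ∀ j, F.Good (f j)) (ε : ℝ)
    (hε : 0 < ε) : ∃ δ : ℝ, 0 < δ ∧ ∀ x x' : ι → ℝ, (∀ j, |x j - x' j| ≤ δ) →
      I ν (babs (∏ j, F.T (x j) (f j) - ∏ j, F.T (x' j) (f j))) ≤ ε := by
  classical
  have hε' : 0 < ε / (Fintype.card ι + 1) := by positivity
  choose δ hδ H using fun j => (hf j).unif (ε / (Fintype.card ι + 1)) hε'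
  obtain ⟨δ0, hδ0, hle⟩ : ∃ δ0 : ℝ, 0 < δ0 ∧ ∀ j, δ0 ≤ δ j := by
    rcases isEmpty_or_nonempty ι with h | h
    · exact ⟨1, one_pos, fun j => (h.false j).elim⟩
    · refine ⟨univ.inf' univ_nonempty δ, ?_, fun j => inf'_le _ (mem_univ j)⟩
      rw [Finset.lt_inf'_iff]
      exact fun j _ => hδ j
  refine ⟨δ0, hδ0, fun x x' hx => ?_⟩
  refine (I_abs_prod_sub_le univ _ _ (fun j _ => (hf j).bddT _) (fun j _ => (hf j).bddT _)).trans ?_
  refine (sum_le_sum (fun j _ => H j (x j) (x' j) ((hx j).trans (hle j)))).trans ?_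
  rw [sum_const, card_univ, nsmul_eq_mul]
  rw [mul_div_assoc', div_le_iff₀ (by positivity)]
  nlinarith

/-- `|I (B * (A - A'))| <= I |A - A'|` for `|B| <= 1` -/
lemma abs_I_mul_sub_le {B A A' : BM Y} (hB : ∀ y, |(B : Y → ℝ) y| ≤ 1) :
    |I ν (B * A) - I ν (B * A')| ≤ I ν (babs (A - A')) := by
  rw [← map_sub, ← mul_sub]
  refine (abs_I_le ν _).trans (I_mono ν (fun y => ?_))
  rw [babs_ap, babs_ap, BM.mul_ap, abs_mul]
  exact mul_le_of_le_one_left (abs_nonneg _) (hB y)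

lemma abs_I_sub_le (A A' : BM Y) : |I ν A - I ν A'| ≤ I ν (babs (A - A')) := by
  rw [← map_sub]; exact abs_I_le ν _

/-- for functions bounded by one the L2 norm is controlled by the L1 norm -/
lemma I_sq_le_of_bdd {A : BM Y} {C : ℝ} (hA : ∀ y, |(A : Y → ℝ) y| ≤ C) :
    I ν (A ^ 2) ≤ C * I ν (babs A) := by
  rw [← smul_eq_mul, ← map_smul]
  refine I_mono ν (fun y => ?_)
  rw [BM.pow_ap, BM.smul_ap, babs_ap, ← sq_abs, sq]
  exact mul_le_mul_of_nonneg_right (hA y) (abs_nonneg _)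

/-- Cauchy-Schwarz: `(I (B A))^2 <= I (A^2)` for `|B| <= 1` -/
lemma I_mul_sq_le {B A : BM Y} (hB : ∀ y, |(B : Y → ℝ) y| ≤ 1) : (I ν (B * A)) ^ 2 ≤ I ν (A ^ 2) := by
  refine (I_sq_le ν _).trans (I_mono ν (fun y => ?_))
  rw [BM.pow_ap, BM.mul_ap, mul_pow, BM.pow_ap]
  have h1 : ((B : Y → ℝ) y) ^ 2 ≤ 1 := by
    rw [← sq_abs]; have := hB y; have := abs_nonneg ((B : Y → ℝ) y); nlinarith
  nlinarith [sq_nonneg ((A : Y → ℝ) y)]

/-! ### admissible functions -/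

/-- vector valued admissible functions -/
def AdmG (F : Flow ν) (A : (ℕ → ℝ) → BM Y) : Prop :=
  ∃ (n : ℕ) (L : Fin n → (ℕ →₀ ℤ)) (o : Fin n → ℝ) (f : Fin n → BM Y), (∀ j, F.Good (f j)) ∧
    ∀ z, A z = ∏ j, F.T (ev (L j) z + o j) (f j)

lemma AdmG.adm {F : Flow ν} {A : (ℕ → ℝ) → BM Y} (h : AdmG F A) : Adm F (fun z => I ν (A z)) := by
  obtain ⟨n, L, o, f, hf, e⟩ := h
  exact ⟨n, L, o, f, hf, fun z => by show I ν (A z) = _; rw [e]⟩

lemma admG_of_fintype (F : Flow ν) {ι : Type*} [Fintype ι] (L : ι → (ℕ →₀ ℤ)) (o : ι → ℝ) (f : ι → BM Y)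
    (hf : ∀ j, F.Good (f j)) : AdmG F (fun z => ∏ j, F.T (ev (L j) z + o j) (f j)) := by
  classical
  refine ⟨Fintype.card ι, fun j => L ((Fintype.equivFin ι).symm j), fun j => o ((Fintype.equivFin ι).symm j),
    fun j => f ((Fintype.equivFin ι).symm j), fun j => hf _, fun z => ?_⟩
  exact (Equiv.prod_comp (Fintype.equivFin ι).symm (fun j => F.T (ev (L j) z + o j) (f j))).symm

lemma AdmG.mul {F : Flow ν} {A B : (ℕ → ℝ) → BM Y} (h : AdmG F A) (h' : AdmG F B) :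
    AdmG F (fun z => A z * B z) := by
  obtain ⟨n, L, o, f, hf, e⟩ := h
  obtain ⟨n', L', o', f', hf', e'⟩ := h'
  have key := admG_of_fintype F (ι := Fin n ⊕ Fin n') (Sum.elim L L') (Sum.elim o o') (Sum.elim f f')
    (by rintro (j | j); exacts [hf j, hf' j])
  have e2 : (fun z => A z * B z) = fun z => ∏ j : Fin n ⊕ Fin n',
      F.T (ev (Sum.elim L L' j) z + Sum.elim o o' j) (Sum.elim f f' j) := by
    funext z
    rw [Fintype.prod_sum_type, e, e']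
    rfl
  rw [e2]; exact key

lemma AdmG.comp {F : Flow ν} {A : (ℕ → ℝ) → BM Y} (h : AdmG F A) {Φ : (ℕ → ℝ) → (ℕ → ℝ)} (hΦ : AffI Φ) :
    AdmG F (fun z => A (Φ z)) := by
  obtain ⟨n, L, o, f, hf, e⟩ := h
  choose L' o' h' using fun j => hΦ (L j)
  refine ⟨n, L', fun j => o' j + o j, f, hf, fun z => ?_⟩
  show A (Φ z) = _
  rw [e]
  refine prod_congr rfl (fun j _ => ?_)
  show F.T (ev (L j) (Φ z) + o j) (f j) = F.T (ev (L' j) z + (o' j + o j)) (f j)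
  rw [h', add_assoc]

lemma AdmG.bdd {F : Flow ν} {A : (ℕ → ℝ) → BM Y} (h : AdmG F A) (z : ℕ → ℝ) (y : Y) :
    |(A z : Y → ℝ) y| ≤ 1 := by
  obtain ⟨n, L, o, f, hf, e⟩ := h
  rw [e]
  exact bm_prod_bdd _ _ (fun j _ => (hf j).bddT _) y

/-- the product function of a family of exponents -/
noncomputable def GG (F : Flow ν) {ι : Type*} [Fintype ι] (L : ι → (ℕ →₀ ℤ)) (f : ι → BM Y) (z : ℕ → ℝ) :
    BM Y := ∏ j, F.T (ev (L j) z) (f j)

lemma admG_GG (F : Flow ν) {ι : Type*} [Fintype ι] (L : ι → (ℕ →₀ ℤ)) (f : ι → BM Y)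
    (hf : ∀ j, F.Good (f j)) : AdmG F (GG F L f) := by
  have h := admG_of_fintype F L (fun _ => 0) f hf
  have e : GG F L f = fun z => ∏ j, F.T (ev (L j) z + 0) (f j) := by
    funext z; simp [GG]
  rw [e]; exact h

/-- uniform continuity of `GG` along one coordinate -/
lemma GG_unif (F : Flow ν) {ι : Type*} [Fintype ι] (L : ι → (ℕ →₀ ℤ)) (f : ι → BM Y)
    (hf : ∀ j, F.Good (f j)) (d : ℕ) (ε : ℝ) (hε : 0 < ε) :
    ∃ δ : ℝ, 0 < δ ∧ ∀ (z : ℕ → ℝ) (t : ℝ), |t| ≤ δ →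
      I ν (babs (GG F L f (ad d t z) - GG F L f z)) ≤ ε := by
  obtain ⟨δ, hδ, H⟩ := prod_unif F f hf ε hε
  have hM : 0 < (1 + ∑ j, |(L j d : ℝ)|) := by
    have : 0 ≤ ∑ j, |(L j d : ℝ)| := sum_nonneg (fun j _ => abs_nonneg _)
    linarith
  refine ⟨δ / (1 + ∑ j, |(L j d : ℝ)|), by positivity, fun z t ht => H _ _ (fun j => ?_)⟩
  rw [ev_ad, add_sub_cancel_left, abs_mul]
  have h1 : |(L j d : ℝ)| ≤ 1 + ∑ j, |(L j d : ℝ)| := by
    have := single_le_sum (f := fun j => |(L j d : ℝ)|) (fun j _ => abs_nonneg _) (mem_univ j)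
    linarith
  calc |(L j d : ℝ)| * |t| ≤ (1 + ∑ j, |(L j d : ℝ)|) * (δ / (1 + ∑ j, |(L j d : ℝ)|)) :=
        mul_le_mul h1 ht (abs_nonneg _) hM.le
    _ = δ := by field_simp

end fam

end Pool.Agent.H63.NS
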