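import Pool.Agent.H63.NS.PetInd
import Pool.Agent.H63.NS.NumF
import Pool.Agent.H27.NS.FC
import Pool.Agent.H88.NS.IdealFinal

/-!
`pet_main` and `flow_cauchy` (MP_3ea55a_an): averages of products of a flow along `n sin n`.
-/

set_option autoImplicit false

open MeasureTheory Finset Filter Topology
open scoped BigOperators

namespace Pool.Agent.H63.NS

variable {Y : Type} [MeasurableSpace Y] {ν : Measure Y} [IsProbabilityMeasure ν]

lemma wtPair : P4.WtPair := fun _ _ _ L P Q hO hP0 hP1 hQ0 hQ1 => P4.wt_pair L P Q hO hP0 hP1 hQ0 hQ1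

lemma hid0 (F : Flow ν) : P4.HID0 F := by
  intro ι _ L f hf l c hl hs ε hε
  have h := List.nodup_cons.mp hl
  exact ideal_decay F L f hf (0 :: 1 :: l) h.2 (by simp) (by simp) c h.1 hs ε hε

lemma hid1 (F : Flow ν) : P4.HID1 F := by
  intro ι _ L f hf l c hl hs
  have h := List.nodup_cons.mp hl
  obtain ⟨ρ, m, h1, h2, h3, h4⟩ := ideal_b F L f hf (0 :: 1 :: l) h.2 (by simp) c h.1 hs
  exact ⟨ρ, m, h1, h2, h3, fun a => h4 a 0⟩

theorem pet_main (F : Flow ν) {n : ℕ} (e : Fin n → ℤ) (f : Fin n → BM Y) (hf : ∀ j, F.Good (f j)) :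
    ∀ ε : ℝ, 0 < ε → ∃ M : ℕ, ∀ N ≥ M,
      I ν ((av (range N) (fun m => ∏ j, F.T (e j * uu m) (f j)) -
        av (range (N ^ 2 * 2 ^ N)) (fun m => ∏ j, F.T (e j * ((m : ℝ) / 2 ^ N)) (f j))) ^ 2) ≤ ε := by
  refine P4.pet_main_of F e f hf (fun 𝒰 h => ?_)
  obtain ⟨D⟩ := num_data 𝒰 h
  refine ⟨D, ?_⟩
  intro _
  exact P4.stp_first wtPair h D F (fun ψ hψ => UA.of_adm F hψ) (hid0 F) (hid1 F) e f hf

theorem flow_cauchy (F : Flow ν) {n : ℕ} (e : Fin n → ℤ) (f : Fin n → BM Y) (hf : ∀ j, F.Good (f j)) :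
    ∀ ε : ℝ, 0 < ε → ∃ M : ℕ, ∀ N ≥ M, ∀ N' ≥ M,
      I ν ((av (range N) (fun m => ∏ j, F.T (e j * uu m) (f j)) -
        av (range N') (fun m => ∏ j, F.T (e j * uu m) (f j))) ^ 2) ≤ ε :=
  P4.flow_cauchy_of F (fun ψ hψ => UA.of_adm F hψ) e f hf (pet_main F e f hf)

end Pool.Agent.H63.NS
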