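import Mathlib

/-!
Basic definitions for the proof that `[n sin n]` is good for multiple convergence (MP_3ea55a_an).
Bounded measurable functions `BM Y` (a real algebra), the integral `I ν`, measure preserving real
flows `Flow`, the action `T` on `BM`, `Good` functions (bounded by one, L1-continuous along the flow).
-/

set_option autoImplicit false

open MeasureTheory Finset
open scoped BigOperators

namespace Pool.Agent.H63.NS

section BMdef

variable (Y : Type) [MeasurableSpace Y]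

/-- The algebra of bounded measurable real functions. -/
def BM : Subalgebra ℝ (Y → ℝ) where
  carrier := {f | Measurable f ∧ ∃ C : ℝ, ∀ y, |f y| ≤ C}
  mul_mem' := by
    rintro f g ⟨hf, C, hC⟩ ⟨hg, D, hD⟩
    refine ⟨hf.mul hg, C * D, fun y => ?_⟩
    simp only [Pi.mul_apply, abs_mul]
    exact mul_le_mul (hC y) (hD y) (abs_nonneg _) ((abs_nonneg _).trans (hC y))
  add_mem' := by
    rintro f g ⟨hf, C, hC⟩ ⟨hg, D, hD⟩
    refine ⟨hf.add hg, C + D, fun y => ?_⟩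
    simp only [Pi.add_apply]
    exact (abs_add_le _ _).trans (add_le_add (hC y) (hD y))
  algebraMap_mem' := by
    intro r
    refine ⟨?_, |r|, fun y => ?_⟩
    · exact measurable_const
    · simp [Pi.algebraMap_apply]

end BMdef

variable {Y : Type} [MeasurableSpace Y]

/-- constructor for elements of `BM` -/
def mkBM (f : Y → ℝ) (hf : Measurable f) (C : ℝ) (hC : ∀ y, |f y| ≤ C) : BM Y := ⟨f, hf, C, hC⟩

@[simp] lemma mkBM_apply (f : Y → ℝ) (hf : Measurable f) (C : ℝ) (hC : ∀ y, |f y| ≤ C) (y : Y) :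
    (mkBM f hf C hC : Y → ℝ) y = f y := rfl

lemma bmeas (f : BM Y) : Measurable (f : Y → ℝ) := f.2.1

lemma bbdd (f : BM Y) : ∃ C : ℝ, 0 ≤ C ∧ ∀ y, |(f : Y → ℝ) y| ≤ C := by
  obtain ⟨C, hC⟩ := f.2.2
  exact ⟨max C 0, le_max_right _ _, fun y => (hC y).trans (le_max_left _ _)⟩

@[simp] lemma BM.mul_ap (f g : BM Y) (y : Y) : ((f * g : BM Y) : Y → ℝ) y = (f : Y → ℝ) y * (g : Y → ℝ) y := rfl
@[simp] lemma BM.add_ap (f g : BM Y) (y : Y) : ((f + g : BM Y) : Y → ℝ) y = (f : Y → ℝ) y + (g : Y → ℝ) y := rfl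
@[simp] lemma BM.sub_ap (f g : BM Y) (y : Y) : ((f - g : BM Y) : Y → ℝ) y = (f : Y → ℝ) y - (g : Y → ℝ) y := rfl
@[simp] lemma BM.neg_ap (f : BM Y) (y : Y) : ((-f : BM Y) : Y → ℝ) y = -(f : Y → ℝ) y := rfl
@[simp] lemma BM.one_ap (y : Y) : ((1 : BM Y) : Y → ℝ) y = 1 := rfl
@[simp] lemma BM.zero_ap (y : Y) : ((0 : BM Y) : Y → ℝ) y = 0 := rfl
@[simp] lemma BM.smul_ap (c : ℝ) (f : BM Y) (y : Y) : ((c • f : BM Y) : Y → ℝ) y = c * (f : Y → ℝ) y := rfl
@[simp] lemma BM.pow_ap (f : BM Y) (n : ℕ) (y : Y) : ((f ^ n : BM Y) : Y → ℝ) y = ((f : Y → ℝ) y) ^ n := rfl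

lemma BM.prod_ap {ι : Type*} (s : Finset ι) (f : ι → BM Y) (y : Y) :
    ((∏ i ∈ s, f i : BM Y) : Y → ℝ) y = ∏ i ∈ s, (f i : Y → ℝ) y := by
  classical
  induction s using Finset.induction_on with
  | empty => simp
  | insert a s ha ih => rw [prod_insert ha, prod_insert ha, BM.mul_ap, ih]

lemma BM.sum_ap {ι : Type*} (s : Finset ι) (f : ι → BM Y) (y : Y) :
    ((∑ i ∈ s, f i : BM Y) : Y → ℝ) y = ∑ i ∈ s, (f i : Y → ℝ) y := by
  classical
  induction s using Finset.induction_on with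
  | empty => simp
  | insert a s ha ih => rw [sum_insert ha, sum_insert ha, BM.add_ap, ih]

/-- absolute value in `BM` -/
def babs (f : BM Y) : BM Y :=
  ⟨fun y => |(f : Y → ℝ) y|, (bmeas f).abs, by
    obtain ⟨C, _, hC⟩ := (bbdd f)
    exact ⟨C, fun y => by rw [abs_abs]; exact hC y⟩⟩

@[simp] lemma babs_ap (f : BM Y) (y : Y) : (babs f : Y → ℝ) y = |(f : Y → ℝ) y| := rfl

/-- sign in `BM` -/
noncomputable def bsgn (f : BM Y) : BM Y :=
  ⟨fun y => if 0 ≤ (f : Y → ℝ) y then 1 else -1,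
    Measurable.ite (measurableSet_le measurable_const (bmeas f)) measurable_const measurable_const,
    ⟨1, fun y => by
      by_cases h : 0 ≤ (f : Y → ℝ) y
      · simp [h]
      · simp [h]⟩⟩

lemma bsgn_bdd (f : BM Y) (y : Y) : |(bsgn f : Y → ℝ) y| ≤ 1 := by
  have h : (bsgn f : Y → ℝ) y = if 0 ≤ (f : Y → ℝ) y then (1 : ℝ) else -1 := rfl
  rw [h]
  split_ifs <;> simp

lemma bsgn_mul (f : BM Y) : bsgn f * f = babs f := by
  apply Subtype.ext
  funext y
  have e : ((bsgn f * f : BM Y) : Y → ℝ) y =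
    (if 0 ≤ (f : Y → ℝ) y then (1 : ℝ) else -1) * (f : Y → ℝ) y := rfl
  rw [e, babs_ap]
  split_ifs with h
  · rw [one_mul, abs_of_nonneg h]
  · rw [abs_of_neg (not_le.mp h)]; ring

variable (ν : Measure Y)

lemma bint [IsFiniteMeasure ν] (f : BM Y) : Integrable (f : Y → ℝ) ν := by
  obtain ⟨C, _, hC⟩ := (bbdd f)
  exact Integrable.of_bound (bmeas f).aestronglyMeasurable C (Filter.Eventually.of_forall fun y => by
    rw [Real.norm_eq_abs]; exact hC y)

/-- the integral as a linear functional on `BM Y` -/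
noncomputable def I [IsFiniteMeasure ν] : BM Y →ₗ[ℝ] ℝ where
  toFun f := ∫ y, (f : Y → ℝ) y ∂ν
  map_add' f g := by
    simp only [BM.add_ap]
    exact integral_add (bint ν f) (bint ν g)
  map_smul' c f := by
    simp only [BM.smul_ap, RingHom.id_apply, smul_eq_mul]
    exact integral_const_mul c _

lemma I_def [IsFiniteMeasure ν] (f : BM Y) : I ν f = ∫ y, (f : Y → ℝ) y ∂ν := rfl

lemma I_mono [IsFiniteMeasure ν] {f g : BM Y} (h : ∀ y, (f : Y → ℝ) y ≤ (g : Y → ℝ) y) : I ν f ≤ I ν g :=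
  integral_mono (bint ν f) (bint ν g) h

lemma I_nonneg [IsFiniteMeasure ν] {f : BM Y} (h : ∀ y, 0 ≤ (f : Y → ℝ) y) : 0 ≤ I ν f :=
  integral_nonneg h

lemma I_one [IsProbabilityMeasure ν] : I ν (1 : BM Y) = 1 := by
  rw [I_def]; simp

lemma I_le_of_le [IsProbabilityMeasure ν] {f : BM Y} {C : ℝ} (h : ∀ y, (f : Y → ℝ) y ≤ C) : I ν f ≤ C := by
  have h1 : I ν f ≤ I ν (C • (1 : BM Y)) := I_mono ν (fun y => by simpa using h y)
  rwa [map_smul, I_one, smul_eq_mul, mul_one] at h1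

lemma abs_I_le [IsFiniteMeasure ν] (f : BM Y) : |I ν f| ≤ I ν (babs f) := by
  rw [abs_le]
  constructor
  · rw [← map_neg]
    exact I_mono ν (fun y => by
      simp only [BM.neg_ap, babs_ap]
      exact neg_abs_le _)
  · exact I_mono ν (fun y => le_abs_self _)

lemma abs_I_le_of_bdd [IsProbabilityMeasure ν] {f : BM Y} {C : ℝ} (h : ∀ y, |(f : Y → ℝ) y| ≤ C) : |I ν f| ≤ C :=
  (abs_I_le ν f).trans (I_le_of_le ν h)

/-- Cauchy-Schwarz (Jensen) for `I` -/
lemma I_sq_le [IsProbabilityMeasure ν] (f : BM Y) : (I ν f) ^ 2 ≤ I ν (f ^ 2) := by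
  have h : 0 ≤ I ν ((f - (I ν f) • (1 : BM Y)) ^ 2) := I_nonneg ν (fun y => by
    rw [BM.pow_ap]; positivity)
  have e : (f - (I ν f) • (1 : BM Y)) ^ 2 = f ^ 2 - (2 * I ν f) • f + (I ν f ^ 2) • (1 : BM Y) := by
    apply Subtype.ext
    funext y
    simp only [BM.pow_ap, BM.sub_ap, BM.smul_ap, BM.one_ap, BM.add_ap]
    ring
  rw [e, map_add, map_sub, map_smul, map_smul, I_one] at h
  simp only [smul_eq_mul, mul_one] at h
  nlinarith [h]

/-- A measure preserving measurable real flow. -/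
structure Flow (ν : Measure Y) where
  S : ℝ → Y → Y
  mp : ∀ a, MeasurePreserving (S a) ν ν
  zero : ∀ y, S 0 y = y
  add : ∀ a b y, S (a + b) y = S a (S b y)

variable {ν}

/-- the action of the flow on bounded measurable functions -/
def Flow.T (F : Flow ν) (a : ℝ) : BM Y →ₐ[ℝ] BM Y where
  toFun f := ⟨fun y => (f : Y → ℝ) (F.S a y), (bmeas f).comp (F.mp a).measurable, by
    obtain ⟨C, _, hC⟩ := (bbdd f)
    exact ⟨C, fun y => hC _⟩⟩
  map_one' := rfl
  map_mul' _ _ := rfl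
  map_zero' := rfl
  map_add' _ _ := rfl
  commutes' _ := rfl

@[simp] lemma Flow.T_ap (F : Flow ν) (a : ℝ) (f : BM Y) (y : Y) :
    (F.T a f : Y → ℝ) y = (f : Y → ℝ) (F.S a y) := rfl

lemma Flow.T_add (F : Flow ν) (a b : ℝ) (f : BM Y) : F.T (a + b) f = F.T b (F.T a f) := by
  apply Subtype.ext; funext y
  simp only [Flow.T_ap, F.add]

lemma Flow.T_T (F : Flow ν) (a b : ℝ) (f : BM Y) : F.T a (F.T b f) = F.T (a + b) f := by
  rw [add_comm, F.T_add]

lemma Flow.T_zero (F : Flow ν) (f : BM Y) : F.T 0 f = f := by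
  apply Subtype.ext; funext y
  simp only [Flow.T_ap, F.zero]

lemma Flow.I_T [IsFiniteMeasure ν] (F : Flow ν) (a : ℝ) (f : BM Y) : I ν (F.T a f) = I ν f := by
  rw [I_def, I_def]
  simp only [Flow.T_ap]
  have h := integral_map (μ := ν) (F.mp a).measurable.aemeasurable
    (f := fun y => (f : Y → ℝ) y) (bmeas f).aestronglyMeasurable
  rw [(F.mp a).map_eq] at h
  exact h.symm

lemma Flow.T_abs (F : Flow ν) (a : ℝ) (f : BM Y) : F.T a (babs f) = babs (F.T a f) := rfl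

/-- `Good f`: bounded by one and L1-continuous along the flow. -/
def Flow.Good [IsFiniteMeasure ν] (F : Flow ν) (f : BM Y) : Prop :=
  (∀ y, |(f : Y → ℝ) y| ≤ 1) ∧
    ∀ ε : ℝ, 0 < ε → ∃ δ : ℝ, 0 < δ ∧ ∀ a : ℝ, |a| ≤ δ → I ν (babs (F.T a f - f)) ≤ ε

lemma Flow.Good.T [IsFiniteMeasure ν] {F : Flow ν} {f : BM Y} (h : F.Good f) (b : ℝ) : F.Good (F.T b f) := by
  refine ⟨fun y => h.1 _, fun ε hε => ?_⟩
  obtain ⟨δ, hδ, H⟩ := h.2 ε hε
  refine ⟨δ, hδ, fun a ha => ?_⟩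
  have e : (F.T a (F.T b f) - F.T b f) = F.T b (F.T a f - f) := by
    rw [map_sub, F.T_T, F.T_T, add_comm]
  rw [e, ← F.T_abs, F.I_T]
  exact H a ha

end Pool.Agent.H63.NS
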