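import Pool.Agent.H63.NS.Vdc
import Pool.Agent.H27.NS.Mn
import Pool.Agent.H63.NS.NumDef

/-!
Claims `Cl`, slowly varying weights `SV`, hats and the localisation lemma.
-/

set_option autoImplicit false

open MeasureTheory Finset Filter Topology
open scoped BigOperators

namespace Pool.Agent.H63.NS.P4

open Pool.Agent.H63.NS

/-- put the values `u`, `b` in the coordinates `0`, `1` -/
noncomputable def put (u b : ℝ) (z : ℕ → ℝ) : ℕ → ℝ := Function.update (Function.update z 0 u) 1 b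

lemma put_zero (u b : ℝ) (z : ℕ → ℝ) : put u b z 0 = u := by
  unfold put; rw [Function.update_of_ne zero_ne_one, Function.update_self]

lemma put_one (u b : ℝ) (z : ℕ → ℝ) : put u b z 1 = b := by
  unfold put; rw [Function.update_self]

lemma put_ne (u b : ℝ) (z : ℕ → ℝ) {d : ℕ} (h0 : d ≠ 0) (h1 : d ≠ 1) : put u b z d = z d := by
  unfold put; rw [Function.update_of_ne h1, Function.update_of_ne h0]

lemma ev_put (L : ℕ →₀ ℤ) (u b : ℝ) (z : ℕ → ℝ) :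
    ev L (put u b z) = ev L z + L 0 * (u - z 0) + L 1 * (b - z 1) := by
  unfold put
  rw [ev_update, ev_update, Function.update_of_ne one_ne_zero]

/-! ### slowly varying weights -/

variable {𝒰 : Ultrafilter ℕ}

structure SV (D : NumData 𝒰) (φ : ℕ → ℕ → ℝ) : Prop where
  bdd : ∀ N m, |φ N m| ≤ 1
  q1 : ∀ ε : ℝ, 0 < ε → ∀ᶠ N in (𝒰 : Filter ℕ), ∀ m < 2 * N, |φ N (m + D.q1 N) - φ N m| ≤ ε
  qs : ∀ ε : ℝ, 0 < ε → ∀ᶠ N in (𝒰 : Filter ℕ), ∀ m < 2 * N, |φ N (m + D.qs N) - φ N m| ≤ ε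

lemma SV.one (D : NumData 𝒰) : SV D (fun _ _ => 1) where
  bdd := fun _ _ => by simp
  q1 := fun ε hε => Eventually.of_forall fun N m _ => by simp [hε.le]
  qs := fun ε hε => Eventually.of_forall fun N m _ => by simp [hε.le]

lemma sv_mul_aux {a b a' b' ε : ℝ} (ha : |a| ≤ 1) (hb' : |b'| ≤ 1) (h1 : |a' - a| ≤ ε / 2)
    (h2 : |b' - b| ≤ ε / 2) : |a' * b' - a * b| ≤ ε := by
  have e : a' * b' - a * b = (a' - a) * b' + a * (b' - b) := by ring
  rw [e]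
  refine (abs_add_le _ _).trans ?_
  rw [abs_mul, abs_mul]
  have := mul_le_of_le_one_right (abs_nonneg (a' - a)) hb'
  have := mul_le_of_le_one_left (abs_nonneg (b' - b)) ha
  linarith

lemma SV.mul {D : NumData 𝒰} {φ χ : ℕ → ℕ → ℝ} (h : SV D φ) (h' : SV D χ) :
    SV D (fun N m => φ N m * χ N m) where
  bdd := fun N m => by
    rw [abs_mul]
    exact mul_le_one₀ (h.bdd N m) (abs_nonneg _) (h'.bdd N m)
  q1 := fun ε hε => by
    filter_upwards [h.q1 (ε / 2) (by positivity), h'.q1 (ε / 2) (by positivity)] with N h1 h2 m hm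
    exact sv_mul_aux (h.bdd _ _) (h'.bdd _ _) (h1 m hm) (h2 m hm)
  qs := fun ε hε => by
    filter_upwards [h.qs (ε / 2) (by positivity), h'.qs (ε / 2) (by positivity)] with N h1 h2 m hm
    exact sv_mul_aux (h.bdd _ _) (h'.bdd _ _) (h1 m hm) (h2 m hm)

/-! ### hats -/

/-- hat function of mesh `δ` at `i δ` -/
noncomputable def hat (δ : ℝ) (i : ℤ) (x : ℝ) : ℝ := max 0 (1 - |x / δ - i|)

lemma hat_nonneg (δ : ℝ) (i : ℤ) (x : ℝ) : 0 ≤ hat δ i x := le_max_left _ _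

lemma hat_le_one (δ : ℝ) (i : ℤ) (x : ℝ) : hat δ i x ≤ 1 :=
  max_le zero_le_one (by linarith [abs_nonneg (x / δ - i)])

lemma abs_hat_le (δ : ℝ) (i : ℤ) (x : ℝ) : |hat δ i x| ≤ 1 := by
  rw [abs_of_nonneg (hat_nonneg _ _ _)]; exact hat_le_one _ _ _

lemma hat_lip {δ : ℝ} (hδ : 0 < δ) (i : ℤ) (x x' : ℝ) : |hat δ i x - hat δ i x'| ≤ |x - x'| / δ := by
  unfold hat
  refine (abs_max_sub_max_le_max _ _ _ _).trans ?_
  rw [sub_self, abs_zero]
  refine max_le (by positivity) ?_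
  have e : (1 - |x / δ - i|) - (1 - |x' / δ - i|) = |x' / δ - i| - |x / δ - i| := by ring
  rw [e]
  refine (abs_abs_sub_abs_le_abs_sub _ _).trans ?_
  have e2 : x' / δ - i - (x / δ - i) = (x' - x) / δ := by ring
  rw [e2, abs_div, abs_of_pos hδ, abs_sub_comm]

lemma hat_supp {δ : ℝ} (hδ : 0 < δ) {i : ℤ} {x : ℝ} (h : hat δ i x ≠ 0) : |x - i * δ| ≤ δ := by
  by_contra hcon
  push Not at hcon
  apply h
  unfold hat
  refine max_eq_left ?_
  have e : x / δ - i = (x - i * δ) / δ := by field_simp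
  rw [e, abs_div, abs_of_pos hδ]
  have : 1 < |x - i * δ| / δ := by rw [lt_div_iff₀ hδ]; linarith
  linarith

lemma hat_sum {δ : ℝ} (hδ : 0 < δ) (M : ℕ) {x : ℝ} (hx : |x| ≤ M * δ) :
    ∑ i ∈ Icc (-(M : ℤ) - 1) (M + 1), hat δ i x = 1 := by
  set y : ℝ := x / δ with hy
  have hyM : |y| ≤ M := by
    rw [hy, abs_div, abs_of_pos hδ, div_le_iff₀ hδ]; exact hx
  have hy1 := (abs_le.mp hyM).1
  have hy2 := (abs_le.mp hyM).2
  set j : ℤ := ⌊y⌋ with hj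
  have hj1 : (j : ℝ) ≤ y := Int.floor_le y
  have hj2 : y < j + 1 := Int.lt_floor_add_one y
  have hjlo : -(M : ℤ) ≤ j := by
    rw [hj, Int.le_floor]; push_cast; exact hy1
  have hjhi : j ≤ M := by
    have : (j : ℝ) ≤ (M : ℤ) := by push_cast; linarith
    exact_mod_cast this
  have hsub : ({j, j + 1} : Finset ℤ) ⊆ Icc (-(M : ℤ) - 1) (M + 1) := by
    intro i hi
    rw [mem_insert, mem_singleton] at hi
    rw [mem_Icc]
    rcases hi with rfl | rfl <;> constructor <;> omega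
  rw [← sum_subset hsub, sum_pair (by omega)]
  · unfold hat
    rw [← hy]
    have e1 : |y - (j : ℝ)| = y - j := abs_of_nonneg (by linarith)
    have e2 : |y - ((j + 1 : ℤ) : ℝ)| = j + 1 - y := by
      push_cast
      rw [abs_of_nonpos (by linarith)]; ring
    rw [e1, e2, max_eq_right (by linarith), max_eq_right (by linarith)]
    ring
  · intro i _ hi
    rw [mem_insert, mem_singleton, not_or] at hi
    unfold hat
    rw [← hy]
    refine max_eq_left ?_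
    have hi2 : i ≤ j - 1 ∨ j + 2 ≤ i := by omega
    rcases hi2 with h | h
    · have : (i : ℝ) ≤ j - 1 := by exact_mod_cast h
      rw [abs_of_nonneg (by linarith)]; linarith
    · have : (j : ℝ) + 2 ≤ i := by exact_mod_cast h
      rw [abs_of_nonpos (by linarith)]; linarith

/-! ### claims -/

/-- average over the parameters in `l`, scale `N` -/
noncomputable def EN (N : ℕ) (l : List ℕ) (ψ : (ℕ → ℝ) → ℝ) : ℝ :=
  AvL (fun _ => N) (fun _ => N ^ 2) l ψ 0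

/-- weighted average of `Ψ` along the actual sequence -/
noncomputable def AN (D : NumData 𝒰) (l : List ℕ) (φ : ℕ → ℕ → ℝ) (Ψ : (ℕ → ℝ) → ℝ) (N : ℕ) : ℝ :=
  EN N l (fun z => av (range N) (fun m => φ N m * Ψ (put (uu m) (D.b N m) z)))

/-- the claim for `Ψ` -/
def Cl (D : NumData 𝒰) (l : List ℕ) (Ψ : (ℕ → ℝ) → ℝ) : Prop :=
  ∀ φ : ℕ → ℕ → ℝ, SV D φ → ∀ ε : ℝ, 0 < ε → ∀ᶠ N in (𝒰 : Filter ℕ),
    |AN D l φ Ψ N - av (range N) (φ N) * mn (0 :: 1 :: l) Ψ 0| ≤ ε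

lemma EN_add (N : ℕ) (l : List ℕ) (ψ χ : (ℕ → ℝ) → ℝ) :
    EN N l (fun z => ψ z + χ z) = EN N l ψ + EN N l χ := avl_add _ _ _ _

lemma EN_sub (N : ℕ) (l : List ℕ) (ψ χ : (ℕ → ℝ) → ℝ) :
    EN N l (fun z => ψ z - χ z) = EN N l ψ - EN N l χ := avl_sub _ _ _ _

lemma EN_close {N : ℕ} (hN : 0 < N) (l : List ℕ) {ψ χ : (ℕ → ℝ) → ℝ} {C : ℝ} (h : ∀ z, |ψ z - χ z| ≤ C) :
    |EN N l ψ - EN N l χ| ≤ C := abs_avl_sub_le l (fun _ _ => by positivity) h _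

lemma AN_add (D : NumData 𝒰) (l : List ℕ) (φ : ℕ → ℕ → ℝ) (Ψ Χ : (ℕ → ℝ) → ℝ) (N : ℕ) :
    AN D l φ (fun z => Ψ z + Χ z) N = AN D l φ Ψ N + AN D l φ Χ N := by
  unfold AN
  rw [← EN_add]
  congr 1
  funext z
  rw [← av_add]
  exact av_congr (fun m _ => by ring)

lemma AN_sub (D : NumData 𝒰) (l : List ℕ) (φ : ℕ → ℕ → ℝ) (Ψ Χ : (ℕ → ℝ) → ℝ) (N : ℕ) :
    AN D l φ (fun z => Ψ z - Χ z) N = AN D l φ Ψ N - AN D l φ Χ N := by
  unfold AN
  rw [← EN_sub]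
  congr 1
  funext z
  rw [← av_sub]
  exact av_congr (fun m _ => by ring)

lemma Cl.add {D : NumData 𝒰} {l : List ℕ} {Ψ Χ : (ℕ → ℝ) → ℝ} (hl : (0 :: 1 :: l).Nodup) (h : Cl D l Ψ)
    (h' : Cl D l Χ) (hu : UA Ψ) (hu' : UA Χ) : Cl D l (fun z => Ψ z + Χ z) := by
  intro φ hφ ε hε
  filter_upwards [h φ hφ (ε / 2) (by positivity), h' φ hφ (ε / 2) (by positivity)] with N h1 h2
  rw [AN_add, mn_add hu hu' hl]
  have e : AN D l φ Ψ N + AN D l φ Χ N -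
      av (range N) (φ N) * (mn (0 :: 1 :: l) Ψ 0 + mn (0 :: 1 :: l) Χ 0) =
      (AN D l φ Ψ N - av (range N) (φ N) * mn (0 :: 1 :: l) Ψ 0) +
      (AN D l φ Χ N - av (range N) (φ N) * mn (0 :: 1 :: l) Χ 0) := by ring
  rw [e]
  refine (abs_add_le _ _).trans ?_
  linarith

lemma Cl.sub {D : NumData 𝒰} {l : List ℕ} {Ψ Χ : (ℕ → ℝ) → ℝ} (hl : (0 :: 1 :: l).Nodup) (h : Cl D l Ψ)
    (h' : Cl D l Χ) (hu : UA Ψ) (hu' : UA Χ) : Cl D l (fun z => Ψ z - Χ z) := by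
  intro φ hφ ε hε
  filter_upwards [h φ hφ (ε / 2) (by positivity), h' φ hφ (ε / 2) (by positivity)] with N h1 h2
  rw [AN_sub, mn_sub hu hu' hl]
  have e : AN D l φ Ψ N - AN D l φ Χ N -
      av (range N) (φ N) * (mn (0 :: 1 :: l) Ψ 0 - mn (0 :: 1 :: l) Χ 0) =
      (AN D l φ Ψ N - av (range N) (φ N) * mn (0 :: 1 :: l) Ψ 0) -
      (AN D l φ Χ N - av (range N) (φ N) * mn (0 :: 1 :: l) Χ 0) := by ring
  rw [e]
  refine (abs_sub _ _).trans ?_
  linarith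

/-- partition of unity estimate -/
lemma hat_approx {δ : ℝ} (hδ : 0 < δ) (M : ℕ) {x ε : ℝ} (hx : |x| ≤ M * δ) (g : ℝ → ℝ) (_hε : 0 ≤ ε)
    (hg : ∀ x', |x - x'| ≤ δ → |g x - g x'| ≤ ε) :
    |g x - ∑ i ∈ Icc (-(M : ℤ) - 1) (M + 1), hat δ i x * g (i * δ)| ≤ ε := by
  have e : g x - ∑ i ∈ Icc (-(M : ℤ) - 1) (M + 1), hat δ i x * g (i * δ) =
      ∑ i ∈ Icc (-(M : ℤ) - 1) (M + 1), hat δ i x * (g x - g (i * δ)) := by
    simp only [mul_sub, sum_sub_distrib]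
    rw [← sum_mul, hat_sum hδ M hx, one_mul]
  rw [e]
  refine (abs_sum_le_sum_abs _ _).trans ?_
  have h1 : ∑ i ∈ Icc (-(M : ℤ) - 1) (M + 1), |hat δ i x * (g x - g (i * δ))| ≤
      ∑ i ∈ Icc (-(M : ℤ) - 1) (M + 1), hat δ i x * ε := by
    refine sum_le_sum (fun i _ => ?_)
    rw [abs_mul, abs_of_nonneg (hat_nonneg _ _ _)]
    by_cases h : hat δ i x = 0
    · rw [h, zero_mul, zero_mul]
    · exact mul_le_mul_of_nonneg_left (hg _ (hat_supp hδ h)) (hat_nonneg _ _ _)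
  refine h1.trans ?_
  rw [← sum_mul, hat_sum hδ M hx, one_mul]

/-- localisation: a parameter depending slowly on `m` -/
theorem loc (D : NumData 𝒰) (l : List ℕ) (hl : (0 :: 1 :: l).Nodup) (h𝒰 : (𝒰 : Filter ℕ) ≤ atTop)
    (c : ℕ → ℕ → ℝ) (C : ℝ)
    (hC : ∀ᶠ N in (𝒰 : Filter ℕ), ∀ m < N, |c N m| ≤ C)
    (hc1 : ∀ ε : ℝ, 0 < ε → ∀ᶠ N in (𝒰 : Filter ℕ), ∀ m < 2 * N, |c N (m + D.q1 N) - c N m| ≤ ε)
    (hcs : ∀ ε : ℝ, 0 < ε → ∀ᶠ N in (𝒰 : Filter ℕ), ∀ m < 2 * N, |c N (m + D.qs N) - c N m| ≤ ε)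
    (Θ : ℝ → (ℕ → ℝ) → ℝ) (hUA : ∀ x, UA (Θ x))
    (hun : ∀ ε : ℝ, 0 < ε → ∃ δ : ℝ, 0 < δ ∧ ∀ x x' : ℝ, |x - x'| ≤ δ → ∀ z, |Θ x z - Θ x' z| ≤ ε)
    (hCl : ∀ x, Cl D l (Θ x)) (ε : ℝ) (hε : 0 < ε) :
    ∀ᶠ N in (𝒰 : Filter ℕ),
      |EN N l (fun z => av (range N) (fun m => Θ (c N m) (put (uu m) (D.b N m) z))) -
        av (range N) (fun m => mn (0 :: 1 :: l) (Θ (c N m)) 0)| ≤ ε := by
  obtain ⟨δ, hδ, H⟩ := hun (ε / 4) (by positivity)
  obtain ⟨M, hM⟩ : ∃ M : ℕ, C ≤ M * δ := by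
    obtain ⟨M, hM⟩ := exists_nat_ge (C / δ)
    exact ⟨M, by rw [div_le_iff₀ hδ] at hM; exact hM⟩
  set S : Finset ℤ := Icc (-(M : ℤ) - 1) (M + 1) with hS
  have hSc : 0 < (S.card : ℝ) + 1 := by positivity
  have hsv : ∀ i : ℤ, SV D (fun N m => hat δ i (c N m)) := fun i =>
    { bdd := fun _ _ => abs_hat_le _ _ _
      q1 := fun ε' hε' => by
        filter_upwards [hc1 (ε' * δ) (by positivity)] with N h m hm
        refine (hat_lip hδ _ _ _).trans ?_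
        rw [div_le_iff₀ hδ]; exact h m hm
      qs := fun ε' hε' => by
        filter_upwards [hcs (ε' * δ) (by positivity)] with N h m hm
        refine (hat_lip hδ _ _ _).trans ?_
        rw [div_le_iff₀ hδ]; exact h m hm }
  have hfin : ∀ᶠ N in (𝒰 : Filter ℕ), ∀ i ∈ S,
      |AN D l (fun N m => hat δ i (c N m)) (Θ (i * δ)) N -
        av (range N) (fun m => hat δ i (c N m)) * mn (0 :: 1 :: l) (Θ (i * δ)) 0| ≤ ε / (4 * (S.card + 1)) := by
    rw [Filter.eventually_all_finset]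
    intro i _
    exact hCl (i * δ) _ (hsv i) _ (by positivity)
  have hN1 : ∀ᶠ N in (𝒰 : Filter ℕ), 0 < N := h𝒰 (eventually_gt_atTop 0)
  filter_upwards [hC, hfin, hN1] with N hCN hf hN
  have hNn : (range N).Nonempty := by rw [nonempty_range_iff]; exact hN.ne'
  -- first approximation
  have a1 : |EN N l (fun z => av (range N) (fun m => Θ (c N m) (put (uu m) (D.b N m) z))) -
      ∑ i ∈ S, AN D l (fun N m => hat δ i (c N m)) (Θ (i * δ)) N| ≤ ε / 4 := by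
    have e1 : ∑ i ∈ S, AN D l (fun N m => hat δ i (c N m)) (Θ (i * δ)) N =
        EN N l (fun z => av (range N) (fun m => ∑ i ∈ S, hat δ i (c N m) *
          Θ (i * δ) (put (uu m) (D.b N m) z))) := by
      unfold AN EN
      rw [← avl_sum]
      congr 1
      funext z
      unfold av
      rw [← smul_sum, sum_comm]
    rw [e1]
    refine EN_close hN l (fun z => ?_)
    rw [← av_sub]
    refine abs_av_le hNn (fun m hm => ?_)
    exact hat_approx hδ M ((hCN m (mem_range.mp hm)).trans hM)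
      (fun x => Θ x (put (uu m) (D.b N m) z)) (by positivity) (fun x' hx' => H _ _ hx' _)
  have a2 : |av (range N) (fun m => mn (0 :: 1 :: l) (Θ (c N m)) 0) -
      ∑ i ∈ S, av (range N) (fun m => hat δ i (c N m)) * mn (0 :: 1 :: l) (Θ (i * δ)) 0| ≤ ε / 4 := by
    have e1 : ∑ i ∈ S, av (range N) (fun m => hat δ i (c N m)) * mn (0 :: 1 :: l) (Θ (i * δ)) 0 =
        av (range N) (fun m => ∑ i ∈ S, hat δ i (c N m) * mn (0 :: 1 :: l) (Θ (i * δ)) 0) := by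
      simp only [← av_mul_right]
      unfold av
      rw [← smul_sum, sum_comm]
    rw [e1, ← av_sub]
    refine abs_av_le hNn (fun m hm => ?_)
    exact hat_approx hδ M ((hCN m (mem_range.mp hm)).trans hM)
      (fun x => mn (0 :: 1 :: l) (Θ x) 0) (by positivity)
      (fun x' hx' => mn_close (hUA _) (hUA _) (fun z => H _ _ hx' z) hl 0)
  have a3 : |∑ i ∈ S, AN D l (fun N m => hat δ i (c N m)) (Θ (i * δ)) N -
      ∑ i ∈ S, av (range N) (fun m => hat δ i (c N m)) * mn (0 :: 1 :: l) (Θ (i * δ)) 0| ≤ ε / 4 := by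
    rw [← sum_sub_distrib]
    refine (abs_sum_le_sum_abs _ _).trans ((sum_le_sum hf).trans ?_)
    rw [sum_const, nsmul_eq_mul]
    rw [mul_div_assoc', div_le_div_iff₀ (by positivity) (by norm_num)]
    nlinarith
  rw [abs_le] at a1 a2 a3 ⊢
  constructor <;> linarith [a1.1, a1.2, a2.1, a2.2, a3.1, a3.2]

end Pool.Agent.H63.NS.P4
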