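import Pool.Agent.H63.NS.StepV

/-!
Definitions for the PET induction: supports, weights of a family of forms, the statement of one step.
-/

set_option autoImplicit false

open MeasureTheory Finset Filter Topology
open scoped BigOperators

namespace Pool.Agent.H63.NS.P4

open Pool.Agent.H63.NS

/-- all forms are supported in the list `l` -/
def Sup {ι : Type} (l : List ℕ) (L : ι → (ℕ →₀ ℤ)) : Prop := ∀ j d, d ∉ l → L j d = 0

open Classical in
/-- number of distinct non-zero coefficients of the coordinate `0` -/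
noncomputable def N2 {ι : Type} [Fintype ι] (L : ι → (ℕ →₀ ℤ)) : ℕ :=
  ((univ.image (fun j => L j 0)).erase 0).card

open Classical in
/-- number of distinct non-zero coefficients of the coordinate `1` among the forms without
coordinate `0` -/
noncomputable def N1 {ι : Type} [Fintype ι] (L : ι → (ℕ →₀ ℤ)) : ℕ :=
  (((univ.filter (fun j => L j 0 = 0)).image (fun j => L j 1)).erase 0).card

/-- the weight, ordered lexicographically -/
noncomputable def wt {ι : Type} [Fintype ι] (L : ι → (ℕ →₀ ℤ)) : ℕ ×ₗ ℕ := toLex (N2 L, N1 L)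

/-- one step of the induction: translation in the coordinate `d` by the new parameter `c` -/
def Stp {𝒰 : Ultrafilter ℕ} (D : NumData 𝒰) {Y : Type} [MeasurableSpace Y] {ν : Measure Y}
    [IsProbabilityMeasure ν] (F : Flow ν) {ι : Type} [Fintype ι] (L : ι → (ℕ →₀ ℤ)) (f : ι → BM Y)
    (l : List ℕ) (c d : ℕ) : Prop :=
  ∀ φ : ℕ → ℕ → ℝ, SV D φ → ∀ ε : ℝ, 0 < ε → ∀ᶠ N in (𝒰 : Filter ℕ),
    EN N (c :: l) (fun z => I ν ((av (range N) (fun m => φ N m •
      (GG F L f (put (uu m) (D.b N m) z) -
        GG F L f (ad d (z c) (put (uu m) (D.b N m) z))))) ^ 2)) ≤ ε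

end Pool.Agent.H63.NS.P4
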