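import Pool.Agent.H63.NS.P4Def

/-!
Pair families: products of two translates of a product function, the four term expression `TT` of the
van der Corput step.
-/

set_option autoImplicit false

open MeasureTheory Finset Filter Topology
open scoped BigOperators

namespace Pool.Agent.H63.NS.P4

open Pool.Agent.H63.NS

variable {𝒰 : Ultrafilter ℕ}
variable {Y : Type} [MeasurableSpace Y] {ν : Measure Y} [IsProbabilityMeasure ν]

/-- the forms of a pair family, translated by `M` -/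
noncomputable def pf {ι : Type} (L P Q : ι → (ℕ →₀ ℤ)) (M : ℕ →₀ ℤ) : ι ⊕ ι → (ℕ →₀ ℤ) :=
  fun j => Sum.elim (fun j => L j + P j) (fun j => L j + Q j) j - M

/-- translation of all forms by `M` does not change the integral -/
lemma I_GG_sub (F : Flow ν) {ι : Type} [Fintype ι] (L : ι → (ℕ →₀ ℤ)) (M : ℕ →₀ ℤ) (f : ι → BM Y)
    (z : ℕ → ℝ) : I ν (GG F (fun j => L j - M) f z) = I ν (GG F L f z) := by
  have e : GG F (fun j => L j - M) f z = F.T (-ev M z) (GG F L f z) := by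
    unfold GG
    rw [map_prod]
    refine prod_congr rfl (fun j _ => ?_)
    rw [F.T_T, ev_sub]
    congr 2
    ring
  rw [e, F.I_T]

/-- the product of two translates is the product function of a pair family -/
lemma I_pair (F : Flow ν) {ι : Type} [Fintype ι] (L P Q : ι → (ℕ →₀ ℤ)) (M : ℕ →₀ ℤ) (o : ι → ℝ)
    (f : ι → BM Y) (p q : (ℕ → ℝ) → (ℕ → ℝ)) (hp : ∀ z j, ev (L j) (p z) = ev (L j + P j) z)
    (hq : ∀ z j, ev (L j) (q z) = ev (L j + Q j) z + o j) (z : ℕ → ℝ) :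
    I ν (GG F L f (p z) * GG F L f (q z)) =
      I ν (GG F (pf L P Q M) (Sum.elim f (fun j => F.T (o j) (f j))) z) := by
  unfold pf
  rw [I_GG_sub]
  congr 1
  unfold GG
  rw [Fintype.prod_sum_type]
  congr 1
  · refine prod_congr rfl (fun j _ => ?_)
    rw [hp]; rfl
  · refine prod_congr rfl (fun j _ => ?_)
    simp only [Sum.elim_inr]
    rw [hq, F.T_T]

lemma good_pair {F : Flow ν} {ι : Type} {f : ι → BM Y} (hf : ∀ j, F.Good (f j)) (o : ι → ℝ) :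
    ∀ j, F.Good (Sum.elim f (fun j => F.T (o j) (f j)) j) := by
  rintro (j | j)
  · exact hf j
  · exact (hf j).T _

/-- the four term expression -/
noncomputable def TT (F : Flow ν) {ι : Type} [Fintype ι] (L : ι → (ℕ →₀ ℤ)) (f : ι → BM Y) (d : ℕ)
    (t : ℝ) (z w : ℕ → ℝ) : ℝ :=
  I ν ((GG F L f z - GG F L f (ad d t z)) * (GG F L f w - GG F L f (ad d t w)))

lemma GG_bdd {F : Flow ν} {ι : Type} [Fintype ι] (L : ι → (ℕ →₀ ℤ)) {f : ι → BM Y}
    (hf : ∀ j, F.Good (f j)) (z : ℕ → ℝ) (y : Y) : |(GG F L f z : Y → ℝ) y| ≤ 1 :=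
  bm_prod_bdd _ _ (fun j _ => (hf j).bddT _) y

lemma GG_sub_bdd {F : Flow ν} {ι : Type} [Fintype ι] (L : ι → (ℕ →₀ ℤ)) {f : ι → BM Y}
    (hf : ∀ j, F.Good (f j)) (z w : ℕ → ℝ) (y : Y) :
    |((GG F L f z - GG F L f w : BM Y) : Y → ℝ) y| ≤ 2 := by
  rw [BM.sub_ap]
  have h1 := GG_bdd (F := F) L hf z y
  have h2 := GG_bdd (F := F) L hf w y
  exact (abs_sub _ _).trans (by linarith)

/-- `|I (B * A) - I (B * A')| <= C I |A - A'|` for `|B| <= C` -/
lemma abs_I_mul_sub_le' {B A A' : BM Y} {C : ℝ} (hB : ∀ y, |(B : Y → ℝ) y| ≤ C) :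
    |I ν (B * A) - I ν (B * A')| ≤ C * I ν (babs (A - A')) := by
  rw [← map_sub, ← mul_sub, ← smul_eq_mul C, ← map_smul]
  refine (abs_I_le ν _).trans (I_mono ν (fun y => ?_))
  rw [babs_ap, BM.smul_ap, babs_ap, BM.mul_ap, abs_mul]
  exact mul_le_mul_of_nonneg_right (hB y) (abs_nonneg _)

lemma I_babs_sub_le (A B A' B' : BM Y) :
    I ν (babs ((A - B) - (A' - B'))) ≤ I ν (babs (A - A')) + I ν (babs (B - B')) := by
  rw [← map_add]
  refine I_mono ν (fun y => ?_)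
  simp only [babs_ap, BM.sub_ap, BM.add_ap]
  have e : ((A : Y → ℝ) y - (B : Y → ℝ) y) - ((A' : Y → ℝ) y - (B' : Y → ℝ) y) =
    ((A : Y → ℝ) y - (A' : Y → ℝ) y) - ((B : Y → ℝ) y - (B' : Y → ℝ) y) := by ring
  rw [e]
  exact abs_sub _ _

lemma TT_unif (F : Flow ν) {ι : Type} [Fintype ι] (L : ι → (ℕ →₀ ℤ)) (f : ι → BM Y)
    (hf : ∀ j, F.Good (f j)) (ε : ℝ) (hε : 0 < ε) :
    ∃ δ : ℝ, 0 < δ ∧ ∀ (d : ℕ) (t : ℝ) (z w w' : ℕ → ℝ), (∀ j, |ev (L j) w - ev (L j) w'| ≤ δ) →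
      |TT F L f d t z w - TT F L f d t z w'| ≤ ε := by
  obtain ⟨δ, hδ, H⟩ := prod_unif F f hf (ε / 4) (by positivity)
  refine ⟨δ, hδ, fun d t z w w' hw => ?_⟩
  have h1 : I ν (babs (GG F L f w - GG F L f w')) ≤ ε / 4 := H _ _ hw
  have h2 : I ν (babs (GG F L f (ad d t w) - GG F L f (ad d t w'))) ≤ ε / 4 := H _ _ (fun j => by
    rw [ev_ad, ev_ad]
    have e : ev (L j) w + (L j d : ℝ) * t - (ev (L j) w' + (L j d : ℝ) * t) = ev (L j) w - ev (L j) w' := by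
      ring
    rw [e]; exact hw j)
  unfold TT
  refine (abs_I_mul_sub_le' (fun y => GG_sub_bdd L hf z (ad d t z) y)).trans ?_
  have h3 := I_babs_sub_le (ν := ν) (GG F L f w) (GG F L f (ad d t w)) (GG F L f w') (GG F L f (ad d t w'))
  linarith

/-- expansion of `TT` -/
lemma TT_eq (F : Flow ν) {ι : Type} [Fintype ι] (L : ι → (ℕ →₀ ℤ)) (f : ι → BM Y) (d : ℕ)
    (t : ℝ) (z w : ℕ → ℝ) :
    TT F L f d t z w = (I ν (GG F L f z * GG F L f w) - I ν (GG F L f z * GG F L f (ad d t w))) -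
      (I ν (GG F L f (ad d t z) * GG F L f w) - I ν (GG F L f (ad d t z) * GG F L f (ad d t w))) := by
  unfold TT
  rw [← map_sub, ← map_sub, ← map_sub]
  congr 1
  ring

/-- the hypothesis of the induction -/
def IH {𝒰 : Ultrafilter ℕ} (D : NumData 𝒰) (F : Flow ν) (l : List ℕ) (w : ℕ ×ₗ ℕ) : Prop :=
  ∀ (κ : Type) [Fintype κ] (L : κ → (ℕ →₀ ℤ)) (f : κ → BM Y), (∀ j, F.Good (f j)) →
    Sup (0 :: 1 :: l) L → wt L < w → Cl D l (fun z => I ν (GG F L f z))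

/-- the statement of the weight lemma (see `H91/NS/Wt.lean`) -/
def WtPair : Prop := ∀ (ι : Type) [Fintype ι] [Nonempty ι] (L P Q : ι → (ℕ →₀ ℤ)),
    (∀ j, L j 0 ≠ 0 ∨ L j 1 ≠ 0) → (∀ j, P j 0 = 0) → (∀ j, P j 1 = 0) →
    (∀ j, Q j 0 = 0) → (∀ j, L j 0 = 0 → Q j 1 = 0) →
    ∃ M : ℕ →₀ ℤ, (∀ d, (∀ j, L j d + P j d = 0) → M d = 0) ∧
      wt (fun j : ι ⊕ ι => Sum.elim (fun j => L j + P j) (fun j => L j + Q j) j - M) < wt L

/-- the claim for a product of two translates -/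
lemma cl_pair (hW : WtPair) (D : NumData 𝒰) (F : Flow ν) {ι : Type} [Fintype ι] [Nonempty ι]
    (L : ι → (ℕ →₀ ℤ)) (f : ι → BM Y) (hf : ∀ j, F.Good (f j)) (hO : ∀ j, L j 0 ≠ 0 ∨ L j 1 ≠ 0)
    (l : List ℕ) (c : ℕ) (hs : Sup (0 :: 1 :: l) L) (ih : IH D F (c :: l) (wt L))
    (P Q : ι → (ℕ →₀ ℤ)) (o : ι → ℝ) (hP0 : ∀ j, P j 0 = 0) (hP1 : ∀ j, P j 1 = 0)
    (hQ0 : ∀ j, Q j 0 = 0) (hQ1 : ∀ j, L j 0 = 0 → Q j 1 = 0)
    (hPs : Sup (0 :: 1 :: c :: l) P) (hQs : Sup (0 :: 1 :: c :: l) Q)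
    (p q : (ℕ → ℝ) → (ℕ → ℝ)) (hp : ∀ z j, ev (L j) (p z) = ev (L j + P j) z)
    (hq : ∀ z j, ev (L j) (q z) = ev (L j + Q j) z + o j) :
    Cl D (c :: l) (fun z => I ν (GG F L f (p z) * GG F L f (q z))) := by
  obtain ⟨M, hM, hlt⟩ := hW ι L P Q hO hP0 hP1 hQ0 hQ1
  have hL' : ∀ j d, d ∉ (0 :: 1 :: c :: l) → L j d = 0 := by
    intro j d hd
    refine hs j d (fun h => hd ?_)
    simp only [List.mem_cons] at h ⊢
    tauto
  have e : (fun z => I ν (GG F L f (p z) * GG F L f (q z))) =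
      fun z => I ν (GG F (pf L P Q M) (Sum.elim f (fun j => F.T (o j) (f j))) z) := by
    funext z; exact I_pair F L P Q M o f p q hp hq z
  rw [e]
  refine ih (ι ⊕ ι) (pf L P Q M) _ (good_pair hf o) ?_ hlt
  intro j d hd
  unfold pf
  have hMd : M d = 0 := hM d (fun j => by rw [hL' j d hd, hPs j d hd, add_zero])
  rw [Finsupp.coe_sub, Pi.sub_apply, hMd, sub_zero]
  rcases j with j | j
  · rw [Sum.elim_inl, Finsupp.coe_add, Pi.add_apply, hL' j d hd, hPs j d hd, add_zero]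
  · rw [Sum.elim_inr, Finsupp.coe_add, Pi.add_apply, hL' j d hd, hQs j d hd, add_zero]

/-- `TT` along a substitution is a sum of four claims -/
lemma cl_TT (hW : WtPair) (D : NumData 𝒰) (F : Flow ν) (hUA : ∀ ψ : (ℕ → ℝ) → ℝ, Adm F ψ → UA ψ)
    {ι : Type} [Fintype ι] [Nonempty ι]
    (L : ι → (ℕ →₀ ℤ)) (f : ι → BM Y) (hf : ∀ j, F.Good (f j)) (hO : ∀ j, L j 0 ≠ 0 ∨ L j 1 ≠ 0)
    (l : List ℕ) (c : ℕ) (hl : (c :: 0 :: 1 :: l).Nodup) (hs : Sup (0 :: 1 :: l) L)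
    (ih : IH D F (c :: l) (wt L)) (d : ℕ) (Q : ι → (ℕ →₀ ℤ)) (o : ι → ℝ)
    (hQ0 : ∀ j, Q j 0 = 0) (hQ1 : ∀ j, L j 0 = 0 → Q j 1 = 0)
    (hQs : Sup (0 :: 1 :: c :: l) Q) (g : (ℕ → ℝ) → (ℕ → ℝ)) (hg : AffI g)
    (hq : ∀ z j, ev (L j) (g z) = ev (L j + Q j) z + o j) :
    UA (fun z => TT F L f d (z c) z (g z)) ∧ Cl D (c :: l) (fun z => TT F L f d (z c) z (g z)) := by
  have hl' : (0 :: 1 :: c :: l).Nodup := by
    have hp : (c :: 0 :: 1 :: l).Perm (0 :: 1 :: c :: l) :=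
      (List.Perm.swap 0 c (1 :: l)).trans ((List.Perm.swap 1 c l).cons 0)
    exact hp.nodup_iff.mp hl
  have hc0 : c ≠ 0 := by rintro rfl; simp at hl
  have hc1 : c ≠ 1 := by rintro rfl; simp at hl
  have hG := admG_GG F L f hf
  have hads : AffI (fun z => ad d (z c) z) := affI_adc' d c
  have hadg : AffI (fun z => ad d (z c) (g z)) := by
    intro L'
    obtain ⟨L1, o1, h1⟩ := hg L'
    refine ⟨L1 + Finsupp.single c (L' d), o1, fun z => ?_⟩
    rw [ev_ad, h1, ev_add, ev_single]; ring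
  have u1 : UA (fun z => I ν (GG F L f z * GG F L f (g z))) := hUA _ ((hG.mul (hG.comp hg)).adm)
  have u2 : UA (fun z => I ν (GG F L f z * GG F L f (ad d (z c) (g z)))) :=
    hUA _ ((hG.mul (hG.comp hadg)).adm)
  have u3 : UA (fun z => I ν (GG F L f (ad d (z c) z) * GG F L f (g z))) :=
    hUA _ (((hG.comp hads).mul (hG.comp hg)).adm)
  have u4 : UA (fun z => I ν (GG F L f (ad d (z c) z) * GG F L f (ad d (z c) (g z)))) :=
    hUA _ (((hG.comp hads).mul (hG.comp hadg)).adm)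
  have hs1 : Sup (0 :: 1 :: c :: l) (fun j : ι => Finsupp.single c (L j d)) := by
    intro j e he
    have : e ≠ c := by rintro rfl; simp at he
    rw [Finsupp.single_apply, if_neg (Ne.symm this)]
  have hs0 : Sup (0 :: 1 :: c :: l) (fun _ : ι => (0 : ℕ →₀ ℤ)) := fun _ _ _ => rfl
  have hsQ : Sup (0 :: 1 :: c :: l) (fun j : ι => Q j + Finsupp.single c (L j d)) := by
    intro j e he
    rw [Finsupp.coe_add, Pi.add_apply, hQs j e he, zero_add]
    exact hs1 j e he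
  have hc0' : ∀ j, (Finsupp.single c (L j d)) 0 = 0 := fun j => by
    rw [Finsupp.single_apply, if_neg hc0]
  have hc1' : ∀ j, (Finsupp.single c (L j d)) 1 = 0 := fun j => by
    rw [Finsupp.single_apply, if_neg hc1]
  have ep0 : ∀ (z : ℕ → ℝ) (j : ι), ev (L j) z = ev (L j + 0) z := fun z j => by rw [add_zero]
  have ep1 : ∀ (z : ℕ → ℝ) (j : ι), ev (L j) (ad d (z c) z) = ev (L j + Finsupp.single c (L j d)) z :=
    fun z j => by rw [ev_ad, ev_add, ev_single]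
  have eq1 : ∀ (z : ℕ → ℝ) (j : ι), ev (L j) (ad d (z c) (g z)) =
      ev (L j + (Q j + Finsupp.single c (L j d))) z + o j := fun z j => by
    rw [ev_ad, hq, ← add_assoc, ev_add (L j + Q j), ev_single]; ring
  have c1 := cl_pair hW D F L f hf hO l c hs ih (fun _ => 0) Q o (fun _ => rfl) (fun _ => rfl) hQ0 hQ1
    hs0 hQs (fun z => z) g ep0 hq
  have c2 := cl_pair hW D F L f hf hO l c hs ih (fun _ => 0) (fun j => Q j + Finsupp.single c (L j d)) o
    (fun _ => rfl) (fun _ => rfl)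
    (fun j => by rw [Finsupp.coe_add, Pi.add_apply, hQ0, hc0', add_zero])
    (fun j h => by rw [Finsupp.coe_add, Pi.add_apply, hQ1 j h, hc1', add_zero])
    hs0 hsQ (fun z => z) (fun z => ad d (z c) (g z)) ep0 eq1
  have c3 := cl_pair hW D F L f hf hO l c hs ih (fun j => Finsupp.single c (L j d)) Q o hc0' hc1' hQ0 hQ1
    hs1 hQs (fun z => ad d (z c) z) g ep1 hq
  have c4 := cl_pair hW D F L f hf hO l c hs ih (fun j => Finsupp.single c (L j d))
    (fun j => Q j + Finsupp.single c (L j d)) o hc0' hc1'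
    (fun j => by rw [Finsupp.coe_add, Pi.add_apply, hQ0, hc0', add_zero])
    (fun j h => by rw [Finsupp.coe_add, Pi.add_apply, hQ1 j h, hc1', add_zero])
    hs1 hsQ (fun z => ad d (z c) z) (fun z => ad d (z c) (g z)) ep1 eq1
  have e : (fun z => TT F L f d (z c) z (g z)) = fun z =>
      ((I ν (GG F L f z * GG F L f (g z)) - I ν (GG F L f z * GG F L f (ad d (z c) (g z)))) -
      (I ν (GG F L f (ad d (z c) z) * GG F L f (g z)) -
        I ν (GG F L f (ad d (z c) z) * GG F L f (ad d (z c) (g z))))) := by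
    funext z; exact TT_eq F L f d (z c) z (g z)
  rw [e]
  exact ⟨(u1.sub u2).sub (u3.sub u4),
    (c1.sub hl' c2 u1 u2).sub hl' (c3.sub hl' c4 u3 u4) (u1.sub u2) (u3.sub u4)⟩

end Pool.Agent.H63.NS.P4
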