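import Pool.Agent.H63.NS.P4Def

/-!
The weight lemmas of the PET induction.
-/

set_option autoImplicit false

open MeasureTheory Finset Filter Topology
open scoped BigOperators

namespace Pool.Agent.H63.NS.P4

open Pool.Agent.H63.NS

lemma card_drop {S S' : Finset ℤ} {w : ℤ} [DecidableEq ℤ] (hw : w ∈ S) (h0 : (0 : ℤ) ∉ S)
    (h : ∀ x ∈ S', x + w ∈ S) : (S'.erase 0).card < (S.erase 0).card := by
  have h1 : (S'.erase 0).card ≤ (S.erase w).card := by
    refine card_le_card_of_injOn (fun x => x + w) ?_ ?_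
    · intro x hx
      rw [mem_coe, mem_erase] at hx
      show x + w ∈ ((S.erase w : Finset ℤ) : Set ℤ)
      rw [mem_coe, mem_erase]
      exact ⟨fun h => hx.1 (by linarith), h x hx.2⟩
    · intro x _ y _ hxy
      have : x + w = y + w := hxy
      linarith
  rw [erase_eq_of_notMem h0]
  rw [card_erase_of_mem hw] at h1
  have : 0 < S.card := card_pos.mpr ⟨w, hw⟩
  omega

lemma toLex_lt {a b a' b' : ℕ} (h : a ≤ a') (h' : b < b') : toLex (a, b) < toLex (a', b') := by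
  rw [Prod.Lex.toLex_lt_toLex]
  rcases h.lt_or_eq with h1 | h1
  · exact Or.inl h1
  · exact Or.inr ⟨h1, h'⟩

/-- the pair family, after a translation by a suitable form `M`, has smaller weight -/
theorem wt_pair {ι : Type} [Fintype ι] [Nonempty ι] (L P Q : ι → (ℕ →₀ ℤ))
    (hO : ∀ j, L j 0 ≠ 0 ∨ L j 1 ≠ 0) (hP0 : ∀ j, P j 0 = 0) (hP1 : ∀ j, P j 1 = 0)
    (hQ0 : ∀ j, Q j 0 = 0) (hQ1 : ∀ j, L j 0 = 0 → Q j 1 = 0) :
    ∃ M : ℕ →₀ ℤ, (∀ d, (∀ j, L j d + P j d = 0) → M d = 0) ∧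
      wt (fun j : ι ⊕ ι => Sum.elim (fun j => L j + P j) (fun j => L j + Q j) j - M) < wt L := by
  classical
  by_cases h : ∃ j0, L j0 0 = 0
  · obtain ⟨j0, hj0⟩ := h
    refine ⟨L j0 + P j0, fun d hd => hd j0, ?_⟩
    have hM0 : (L j0 + P j0) 0 = 0 := by
      rw [Finsupp.coe_add, Pi.add_apply, hj0, hP0, add_zero]
    have hM1 : (L j0 + P j0) 1 = L j0 1 := by
      rw [Finsupp.coe_add, Pi.add_apply, hP1, add_zero]
    have e0 : ∀ j : ι ⊕ ι, (Sum.elim (fun j => L j + P j) (fun j => L j + Q j) j - (L j0 + P j0)) 0 =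
        L (Sum.elim id id j) 0 := by
      rintro (j | j)
      · rw [Finsupp.coe_sub, Pi.sub_apply, hM0, sub_zero, Sum.elim_inl, Finsupp.coe_add, Pi.add_apply,
          hP0, add_zero]; rfl
      · rw [Finsupp.coe_sub, Pi.sub_apply, hM0, sub_zero, Sum.elim_inr, Finsupp.coe_add, Pi.add_apply,
          hQ0, add_zero]; rfl
    have e1 : ∀ j : ι ⊕ ι, L (Sum.elim id id j) 0 = 0 →
        (Sum.elim (fun j => L j + P j) (fun j => L j + Q j) j - (L j0 + P j0)) 1 =
        L (Sum.elim id id j) 1 - L j0 1 := by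
      rintro (j | j) hj
      · rw [Finsupp.coe_sub, Pi.sub_apply, hM1, Sum.elim_inl, Finsupp.coe_add, Pi.add_apply,
          hP1, add_zero]; rfl
      · rw [Finsupp.coe_sub, Pi.sub_apply, hM1, Sum.elim_inr, Finsupp.coe_add, Pi.add_apply,
          hQ1 j hj, add_zero]; rfl
    unfold wt
    refine toLex_lt ?_ ?_
    · unfold N2
      refine card_le_card (erase_subset_erase _ ?_)
      intro x hx
      rw [mem_image] at hx ⊢
      obtain ⟨j, _, rfl⟩ := hx
      exact ⟨Sum.elim id id j, mem_univ _, (e0 j).symm⟩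
    · unfold N1
      refine card_drop (w := L j0 1) ?_ ?_ ?_
      · rw [mem_image]
        exact ⟨j0, mem_filter.mpr ⟨mem_univ _, hj0⟩, rfl⟩
      · intro hx
        rw [mem_image] at hx
        obtain ⟨j, hj, hj1⟩ := hx
        rw [mem_filter] at hj
        rcases hO j with h | h
        · exact h hj.2
        · exact h hj1
      · intro x hx
        rw [mem_image] at hx ⊢
        obtain ⟨j, hj, rfl⟩ := hx
        rw [mem_filter] at hj
        have hj' : L (Sum.elim id id j) 0 = 0 := by rw [← e0 j]; exact hj.2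
        refine ⟨Sum.elim id id j, mem_filter.mpr ⟨mem_univ _, hj'⟩, ?_⟩
        show L (Sum.elim id id j) 1 =
          (Sum.elim (fun j => L j + P j) (fun j => L j + Q j) j - (L j0 + P j0)) 1 + L j0 1
        rw [e1 j hj']; ring
  · push Not at h
    obtain ⟨j0⟩ := ‹Nonempty ι›
    refine ⟨L j0 + P j0, fun d hd => hd j0, ?_⟩
    unfold wt
    rw [Prod.Lex.toLex_lt_toLex]
    left
    show N2 _ < N2 L
    unfold N2
    have hM0 : (L j0 + P j0) 0 = L j0 0 := by
      rw [Finsupp.coe_add, Pi.add_apply, hP0, add_zero]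
    refine card_drop (w := L j0 0) ?_ ?_ ?_
    · exact mem_image.mpr ⟨j0, mem_univ _, rfl⟩
    · intro hx
      obtain ⟨j, _, hj⟩ := mem_image.mp hx
      exact h j hj
    · intro x hx
      rw [mem_image] at hx ⊢
      obtain ⟨j, _, rfl⟩ := hx
      refine ⟨Sum.elim id id j, mem_univ _, ?_⟩
      rcases j with j | j
      · show L j 0 = (L j + P j - (L j0 + P j0)) 0 + L j0 0
        rw [Finsupp.coe_sub, Pi.sub_apply, hM0, Finsupp.coe_add, Pi.add_apply, hP0]; ring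
      · show L j 0 = (L j + Q j - (L j0 + P j0)) 0 + L j0 0
        rw [Finsupp.coe_sub, Pi.sub_apply, hM0, Finsupp.coe_add, Pi.add_apply, hQ0]; ring

theorem wt_sub {ι : Type} [Fintype ι] (L : ι → (ℕ →₀ ℤ)) [Fintype {j : ι // L j 0 ≠ 0 ∨ L j 1 ≠ 0}] :
    wt (fun j : {j : ι // L j 0 ≠ 0 ∨ L j 1 ≠ 0} => L j.1) = wt L := by
  classical
  have h2 : N2 (fun j : {j : ι // L j 0 ≠ 0 ∨ L j 1 ≠ 0} => L j.1) = N2 L := by
    unfold N2
    congr 1
    ext x
    simp only [mem_erase, mem_image, mem_univ, true_and]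
    constructor
    · rintro ⟨hx, j, hj⟩
      exact ⟨hx, j.1, hj⟩
    · rintro ⟨hx, j, hj⟩
      exact ⟨hx, ⟨j, Or.inl (by rw [hj]; exact hx)⟩, hj⟩
  have h1 : N1 (fun j : {j : ι // L j 0 ≠ 0 ∨ L j 1 ≠ 0} => L j.1) = N1 L := by
    unfold N1
    congr 1
    ext x
    simp only [mem_erase, mem_image, mem_filter, mem_univ, true_and]
    constructor
    · rintro ⟨hx, j, hj, hj'⟩
      exact ⟨hx, j.1, hj, hj'⟩
    · rintro ⟨hx, j, hj, hj'⟩
      exact ⟨hx, ⟨j, Or.inr (by rw [hj']; exact hx)⟩, hj, hj'⟩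
  unfold wt
  rw [h1, h2]

theorem N2_eq_zero {ι : Type} [Fintype ι] (L : ι → (ℕ →₀ ℤ)) : N2 L = 0 ↔ ∀ j, L j 0 = 0 := by
  classical
  unfold N2
  rw [card_eq_zero]
  constructor
  · intro h j
    by_contra hj
    have : L j 0 ∈ ((univ.image (fun j => L j 0)).erase 0) :=
      mem_erase.mpr ⟨hj, mem_image.mpr ⟨j, mem_univ _, rfl⟩⟩
    rw [h] at this
    simp at this
  · intro h
    rw [eq_empty_iff_forall_notMem]
    intro x hx
    rw [mem_erase, mem_image] at hx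
    obtain ⟨hx, j, _, hj⟩ := hx
    exact hx (by rw [← hj, h j])

theorem N1_pos {ι : Type} [Fintype ι] (L : ι → (ℕ →₀ ℤ)) (h : ∃ j, L j 0 = 0 ∧ L j 1 ≠ 0) : 0 < N1 L := by
  classical
  obtain ⟨j, hj, hj'⟩ := h
  unfold N1
  rw [card_pos]
  exact ⟨L j 1, mem_erase.mpr ⟨hj', mem_image.mpr ⟨j, mem_filter.mpr ⟨mem_univ _, hj⟩, rfl⟩⟩⟩

/-- `L'` has no coordinate `0` -/
theorem wt_lt0 {ι : Type} [Fintype ι] (L L' : ι → (ℕ →₀ ℤ)) (h : ∀ j, L' j 0 = 0)
    (hL : ∃ j, L j 0 ≠ 0) : wt L' < wt L := by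
  unfold wt
  rw [Prod.Lex.toLex_lt_toLex]
  left
  show N2 L' < N2 L
  rw [(N2_eq_zero L').mpr h]
  refine Nat.pos_of_ne_zero (fun h0 => ?_)
  obtain ⟨j, hj⟩ := hL
  exact hj ((N2_eq_zero L).mp h0 j)

/-- `L'` has no coordinates `0`, `1` -/
theorem wt_lt1 {ι : Type} [Fintype ι] (L L' : ι → (ℕ →₀ ℤ)) (h : ∀ j, L' j 0 = 0) (h' : ∀ j, L' j 1 = 0)
    (hL : ∃ j, L j 0 ≠ 0 ∨ L j 1 ≠ 0) : wt L' < wt L := by
  classical
  by_cases hz : ∃ j, L j 0 ≠ 0
  · exact wt_lt0 L L' h hz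
  · push Not at hz
    obtain ⟨j, hj⟩ := hL
    unfold wt
    refine toLex_lt ?_ ?_
    · rw [(N2_eq_zero L').mpr h]; exact Nat.zero_le _
    · have e : N1 L' = 0 := by
        unfold N1
        rw [card_eq_zero, eq_empty_iff_forall_notMem]
        intro x hx
        rw [mem_erase, mem_image] at hx
        obtain ⟨hx, j, _, hj⟩ := hx
        exact hx (by rw [← hj, h' j])
      rw [e]
      refine N1_pos L ⟨j, hz j, ?_⟩
      rcases hj with hj | hj
      · exact absurd (hz j) hj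
      · exact hj

end Pool.Agent.H63.NS.P4
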