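import Pool.Agent.H63.NS.Stp
import Pool.Agent.H63.NS.WtB
import Pool.Agent.H15.NS.StepCl

/-!
The PET induction.
-/

set_option autoImplicit false

open MeasureTheory Finset Filter Topology
open scoped BigOperators

namespace Pool.Agent.H63.NS.P4

open Pool.Agent.H63.NS

variable {𝒰 : Ultrafilter ℕ}
variable {Y : Type} [MeasurableSpace Y] {ν : Measure Y} [IsProbabilityMeasure ν]

/-- hypothesis: ideal decay for all families -/
def HID0 (F : Flow ν) : Prop := ∀ (ι : Type) [Fintype ι] (L : ι → (ℕ →₀ ℤ)) (f : ι → BM Y),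
  (∀ j, F.Good (f j)) → ∀ (l : List ℕ) (c : ℕ), (c :: 0 :: 1 :: l).Nodup → Sup (0 :: 1 :: l) L →
    ∀ ε : ℝ, 0 < ε → ∃ k0 : ℕ, ∀ k : ℕ, k0 ≤ k → ∀ x : ℝ, ∀ z : ℕ → ℝ,
      |mn (c :: 0 :: 1 :: l) (fun z => TT F L f 0 (z c) z (gk k x z)) z| ≤ ε

/-- hypothesis: the second ideal statement -/
def HID1 (F : Flow ν) : Prop := ∀ (ι : Type) [Fintype ι] (L : ι → (ℕ →₀ ℤ)) (f : ι → BM Y),
  (∀ j, F.Good (f j)) → ∀ (l : List ℕ) (c : ℕ), (c :: 0 :: 1 :: l).Nodup → Sup (0 :: 1 :: l) L →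
    ∃ (ρ : ℝ → ℝ) (m : ℝ), (∀ a, |ρ a| ≤ 1) ∧
      (∀ ε : ℝ, 0 < ε → ∃ δ : ℝ, 0 < δ ∧ ∀ a a' : ℝ, |a - a'| ≤ δ → |ρ a - ρ a'| ≤ ε) ∧
      (∀ ε : ℝ, 0 < ε → ∃ L : ℕ, ∀ k ≥ L, ∀ K ≥ L, ∀ x : ℝ,
        |av (range (K * 2 ^ k)) (fun i => ρ (x + (i : ℝ) / 2 ^ k)) - m| ≤ ε) ∧
      ∀ a : ℝ, mn (c :: 0 :: 1 :: l) (fun z => TT F L f 1 (z c) z (ad 1 a z)) 0 = 2 * (ρ a - m)

omit [IsProbabilityMeasure ν] in
/-- splitting of the product function -/
lemma GG_split (F : Flow ν) {ι : Type} [Fintype ι] (p : ι → Prop) [DecidablePred p] (L : ι → (ℕ →₀ ℤ))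
    (f : ι → BM Y) (z : ℕ → ℝ) :
    GG F L f z = GG F (fun j : {j // ¬ p j} => L j.1) (fun j => f j.1) z *
      GG F (fun j : {j // p j} => L j.1) (fun j => f j.1) z := by
  unfold GG
  rw [mul_comm]
  exact (Fintype.prod_subtype_mul_prod_subtype p (fun j => F.T (ev (L j) z) (f j))).symm

omit [IsProbabilityMeasure ν] in
lemma GG_congr (F : Flow ν) {ι : Type} [Fintype ι] (L L' : ι → (ℕ →₀ ℤ)) (f : ι → BM Y) (z z' : ℕ → ℝ)
    (h : ∀ j, ev (L j) z = ev (L' j) z') : GG F L f z = GG F L' f z' := by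
  unfold GG
  exact prod_congr rfl (fun j _ => by rw [h])

/-- the base of the induction -/
lemma cl_base (h𝒰 : (𝒰 : Filter ℕ) ≤ atTop) (D : NumData 𝒰) (F : Flow ν)
    (hUA : ∀ ψ : (ℕ → ℝ) → ℝ, Adm F ψ → UA ψ)
    {ι : Type} [Fintype ι] (L : ι → (ℕ →₀ ℤ)) (f : ι → BM Y) (hf : ∀ j, F.Good (f j))
    (h0 : ∀ j, L j 0 = 0) (h1 : ∀ j, L j 1 = 0) (l : List ℕ) (hl : (0 :: 1 :: l).Nodup) :
    Cl D l (fun z => I ν (GG F L f z)) := by
  have hu : UA (fun z => I ν (GG F L f z)) := hUA _ (admG_GG F L f hf).adm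
  have i0 : Indep 0 (fun z => I ν (GG F L f z)) := fun z x => by
    show I ν (GG F L f _) = I ν (GG F L f z)
    rw [GG_congr F L L f (Function.update z 0 x) z (fun j => by rw [ev_update, h0 j]; push_cast; ring)]
  have i1 : Indep 1 (fun z => I ν (GG F L f z)) := fun z x => by
    show I ν (GG F L f _) = I ν (GG F L f z)
    rw [GG_congr F L L f (Function.update z 1 x) z (fun j => by rw [ev_update, h1 j]; push_cast; ring)]
  have hl1 : (1 :: l).Nodup := (List.nodup_cons.mp hl).2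
  have hl2 : l.Nodup := (List.nodup_cons.mp hl1).2
  intro φ hφ ε hε
  rw [mn_drop hu i0 hl, mn_drop hu i1 hl1]
  obtain ⟨K, hK⟩ := mn_spec hu hl2 0 ε hε
  have hN1 : ∀ᶠ N in (𝒰 : Filter ℕ), K + 1 ≤ N := h𝒰 (eventually_ge_atTop (K + 1))
  filter_upwards [hN1] with N hN
  have e : AN D l φ (fun z => I ν (GG F L f z)) N =
      av (range N) (φ N) * EN N l (fun z => I ν (GG F L f z)) := by
    unfold AN EN
    rw [← avl_smul]
    congr 1
    funext z
    rw [← av_mul_right]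
    refine av_congr (fun m _ => ?_)
    show φ N m * I ν (GG F L f (put (uu m) (D.b N m) z)) = φ N m * I ν (GG F L f z)
    rw [GG_congr F L L f (put (uu m) (D.b N m) z) z (fun j => by rw [ev_put, h0 j, h1 j]; simp)]
  rw [e, ← mul_sub, abs_mul]
  have hb : |av (range N) (φ N)| ≤ 1 := abs_av_le' zero_le_one (fun m _ => hφ.bdd N m)
  have h2 := hK (fun _ => N) (fun _ => N ^ 2) (fun _ _ => by omega)
    (fun _ _ => by nlinarith) 0 (fun _ _ => rfl)
  exact (mul_le_of_le_one_left (abs_nonneg _) hb).trans h2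

/-- the PET induction -/
theorem cl_main (hW : WtPair) (h𝒰 : (𝒰 : Filter ℕ) ≤ atTop) (D : NumData 𝒰) (F : Flow ν)
    (hUA : ∀ ψ : (ℕ → ℝ) → ℝ, Adm F ψ → UA ψ) (h0 : HID0 F) (h1 : HID1 F) (w : ℕ ×ₗ ℕ) :
    ∀ (ι : Type) [Fintype ι] (L : ι → (ℕ →₀ ℤ)) (f : ι → BM Y), (∀ j, F.Good (f j)) →
      ∀ l : List ℕ, (0 :: 1 :: l).Nodup → Sup (0 :: 1 :: l) L → wt L = w →
        Cl D l (fun z => I ν (GG F L f z)) := by
  classical
  induction w using WellFoundedLT.induction with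
  | ind w ih =>
  intro ι _ L f hf l hl hs hw
  by_cases hbase : ∃ j, L j 0 ≠ 0 ∨ L j 1 ≠ 0
  swap
  · push Not at hbase
    exact cl_base h𝒰 D F hUA L f hf (fun j => (hbase j).1) (fun j => (hbase j).2) l hl
  obtain ⟨j0, hj0⟩ := hbase
  obtain ⟨c, hc⟩ := Infinite.exists_notMem_finset (0 :: 1 :: l).toFinset
  rw [List.mem_toFinset] at hc
  have hlc : (c :: 0 :: 1 :: l).Nodup := List.nodup_cons.mpr ⟨hc, hl⟩
  have hperm : (c :: 0 :: 1 :: l).Perm (0 :: 1 :: c :: l) :=
    (List.Perm.swap 0 c (1 :: l)).trans ((List.Perm.swap 1 c l).cons 0)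
  have hl' : (0 :: 1 :: c :: l).Nodup := hperm.nodup_iff.mp hlc
  have hc0 : c ≠ 0 := by rintro rfl; simp at hc
  have hc1 : c ≠ 1 := by rintro rfl; simp at hc
  let p : ι → Prop := fun j => L j 0 ≠ 0 ∨ L j 1 ≠ 0
  have hne : Nonempty {j // p j} := ⟨⟨j0, hj0⟩⟩
  set LO : {j // p j} → (ℕ →₀ ℤ) := fun j => L j.1 with hLO
  set LC : {j // ¬ p j} → (ℕ →₀ ℤ) := fun j => L j.1 with hLC
  have hwO : wt LO = wt L := wt_sub L
  have hIH : IH D F (c :: l) (wt LO) := by
    intro κ _ L' f' hf' hs' hlt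
    rw [hwO, hw] at hlt
    exact ih (wt L') hlt κ L' f' hf' (c :: l) hl' hs' rfl
  have hsO : Sup (0 :: 1 :: l) LO := fun j d hd => hs j.1 d hd
  have hsC : Sup l LC := by
    intro j d hd
    by_cases hd0 : d = 0
    · have := j.2; subst hd0; by_contra hcon; exact this (Or.inl hcon)
    by_cases hd1 : d = 1
    · have := j.2; subst hd1; by_contra hcon; exact this (Or.inr hcon)
    · refine hs j.1 d ?_
      simp only [List.mem_cons, not_or]
      exact ⟨hd0, hd1, hd⟩
  have esplit : (fun z => I ν (GG F L f z)) = fun z => I ν (GG F LC (fun j => f j.1) z *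
      GG F LO (fun j => f j.1) z) := by
    funext z; rw [GG_split F p L f z]
  -- the new family
  have hnew : ∀ d : ℕ, (d = 0 ∨ d = 1) →
      wt (fun j : ι => L j - Finsupp.single d (L j d) + Finsupp.single c (L j d)) < wt L →
      Cl D (c :: l) (fun z => I ν (GG F LC (fun j => f j.1) z *
        GG F (fun j : {j // p j} => LO j - Finsupp.single d (LO j d) + Finsupp.single c (LO j d))
          (fun j => f j.1) z)) := by
    intro d hd hlt
    rw [hw] at hlt
    have key := ih _ hlt ι (fun j : ι => L j - Finsupp.single d (L j d) + Finsupp.single c (L j d)) f hf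
      (c :: l) hl' (by
        intro j e he
        have hec : e ≠ c := by rintro rfl; simp at he
        have hed : e ≠ d := by rintro rfl; rcases hd with rfl | rfl <;> simp at he
        have hee : e ∉ 0 :: 1 :: l := by
          intro h; apply he; simp only [List.mem_cons] at h ⊢; tauto
        simp only [Finsupp.coe_add, Finsupp.coe_sub, Pi.add_apply, Pi.sub_apply, Finsupp.single_apply,
          if_neg (Ne.symm hec), if_neg (Ne.symm hed), hs j e hee]
        ring) rfl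
    have e : (fun z => I ν (GG F (fun j : ι => L j - Finsupp.single d (L j d) + Finsupp.single c (L j d)) f z)) =
        fun z => I ν (GG F LC (fun j => f j.1) z *
        GG F (fun j : {j // p j} => LO j - Finsupp.single d (LO j d) + Finsupp.single c (LO j d))
          (fun j => f j.1) z) := by
      funext z
      rw [GG_split F p _ f z]
      congr 2
      refine GG_congr F _ _ _ z z (fun j => ?_)
      have hjd : L j.1 d = 0 := by
        rcases hd with rfl | rfl
        · by_contra hcon; exact j.2 (Or.inl hcon)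
        · by_contra hcon; exact j.2 (Or.inr hcon)
      rw [hjd, Finsupp.single_zero, Finsupp.single_zero, sub_zero, add_zero]
    rw [e] at key
    exact key
  rw [esplit]
  by_cases hz : ∃ j, L j 0 ≠ 0
  · refine cl_of_stp h𝒰 D F hUA LO (fun j => f j.1) (fun j => hf _) LC (fun j => f j.1) (fun j => hf _)
      l c 0 hlc (Or.inl rfl) hsO hsC ?_ (hnew 0 (Or.inl rfl) ?_)
    · exact stp0 hW h𝒰 D F hUA LO _ (fun j => hf _) (fun j => j.2) l c hlc hsO hIH
        (h0 _ LO _ (fun j => hf _) l c hlc hsO)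
    · exact wt_lt0 L _ (fun j => by
        simp [hc0]) hz
  · push Not at hz
    refine cl_of_stp h𝒰 D F hUA LO (fun j => f j.1) (fun j => hf _) LC (fun j => f j.1) (fun j => hf _)
      l c 1 hlc (Or.inr rfl) hsO hsC ?_ (hnew 1 (Or.inr rfl) ?_)
    · exact stp1 hW h𝒰 D F hUA LO _ (fun j => hf _) (fun j => hz j.1)
        (fun j => by rcases j.2 with h | h; exacts [absurd (hz _) h, h]) l c hlc hsO hIH
        (h1 _ LO _ (fun j => hf _) l c hlc hsO)
    · exact wt_lt1 L _ (fun j => by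
        simp [hc0, hz j]) (fun j => by
        simp [hc1]) ⟨j0, hj0⟩

/-- the first step for pure families: what `pet_main` needs -/
theorem stp_first (hW : WtPair) (h𝒰 : (𝒰 : Filter ℕ) ≤ atTop) (D : NumData 𝒰) (F : Flow ν)
    (hUA : ∀ ψ : (ℕ → ℝ) → ℝ, Adm F ψ → UA ψ) (h0 : HID0 F) (h1 : HID1 F)
    {n : ℕ} (e : Fin n → ℤ) (f : Fin n → BM Y) (hf : ∀ j, F.Good (f j))
    [Fintype {j : Fin n // e j ≠ 0}] :
    Stp D F (fun j : {j : Fin n // e j ≠ 0} => Finsupp.single 0 (e j.1)) (fun j => f j.1) [] 2 0 := by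
  classical
  rcases isEmpty_or_nonempty {j : Fin n // e j ≠ 0} with hE | hne
  · intro φ hφ ε hε
    have hN1 : ∀ᶠ N in (𝒰 : Filter ℕ), 0 < N := h𝒰 (eventually_gt_atTop 0)
    filter_upwards [hN1] with N hN
    have e1 : (fun z : ℕ → ℝ => I ν ((av (range N) (fun m => φ N m •
      (GG F (fun j : {j : Fin n // e j ≠ 0} => Finsupp.single 0 (e j.1)) (fun j => f j.1)
          (put (uu m) (D.b N m) z) -
        GG F (fun j : {j : Fin n // e j ≠ 0} => Finsupp.single 0 (e j.1)) (fun j => f j.1)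
          (ad 0 (z 2) (put (uu m) (D.b N m) z))))) ^ 2)) = fun _ => (0 : ℝ) := by
      funext z
      have e2 : (fun m => φ N m •
      (GG F (fun j : {j : Fin n // e j ≠ 0} => Finsupp.single 0 (e j.1)) (fun j => f j.1)
          (put (uu m) (D.b N m) z) -
        GG F (fun j : {j : Fin n // e j ≠ 0} => Finsupp.single 0 (e j.1)) (fun j => f j.1)
          (ad 0 (z 2) (put (uu m) (D.b N m) z)))) = fun _ => (0 : BM Y) := by
        funext m
        have : ∀ w, GG F (fun j : {j : Fin n // e j ≠ 0} => Finsupp.single 0 (e j.1)) (fun j => f j.1) w =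
            1 := fun w => Finset.prod_of_isEmpty _
        rw [this, this, sub_self, smul_zero]
      rw [e2]
      have e3 : av (range N) (fun _ => (0 : BM Y)) = 0 := by
        unfold av; simp
      rw [e3]
      simp
    rw [e1, EN_const hN]
    exact hε.le
  · have hl : (2 :: 0 :: 1 :: ([] : List ℕ)).Nodup := by decide
    have hl' : (0 :: 1 :: 2 :: ([] : List ℕ)).Nodup := by decide
    have hs : Sup (0 :: 1 :: []) (fun j : {j : Fin n // e j ≠ 0} => Finsupp.single 0 (e j.1)) := by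
      intro j d hd
      have : d ≠ 0 := by rintro rfl; simp at hd
      rw [Finsupp.single_apply, if_neg (Ne.symm this)]
    refine stp0 hW h𝒰 D F hUA _ _ (fun j => hf _) (fun j => Or.inl (by
      rw [Finsupp.single_eq_same]; exact j.2)) [] 2 hl hs ?_ (h0 _ _ _ (fun j => hf _) [] 2 hl hs)
    intro κ _ L' f' hf' hs' _
    exact cl_main hW h𝒰 D F hUA h0 h1 (wt L') κ L' f' hf' [2] hl' hs' rfl

end Pool.Agent.H63.NS.P4
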