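import Pool.Agent.H63.NS.Loc

/-!
The van der Corput step along the ultrafilter.
-/

set_option autoImplicit false

open MeasureTheory Finset Filter Topology
open scoped BigOperators

namespace Pool.Agent.H63.NS.P4

open Pool.Agent.H63.NS

variable {𝒰 : Ultrafilter ℕ}
variable {Y : Type} [MeasurableSpace Y] {ν : Measure Y} [IsProbabilityMeasure ν]

lemma EN_av {ι : Type*} (N : ℕ) (l : List ℕ) (s : Finset ι) (ψ : ι → (ℕ → ℝ) → ℝ) :
    EN N l (fun z => av s (fun i => ψ i z)) = av s (fun i => EN N l (ψ i)) := avl_av _ _ _ _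

lemma EN_mono (N : ℕ) (l : List ℕ) {ψ χ : (ℕ → ℝ) → ℝ} (h : ∀ z, ψ z ≤ χ z) : EN N l ψ ≤ EN N l χ :=
  avl_mono l h _

lemma EN_const {N : ℕ} (hN : 0 < N) (l : List ℕ) (c : ℝ) : EN N l (fun _ => c) = c :=
  avl_const l (fun _ _ => by positivity) c _

lemma EN_le {N : ℕ} (hN : 0 < N) (l : List ℕ) {ψ : (ℕ → ℝ) → ℝ} {C : ℝ} (h : ∀ z, ψ z ≤ C) : EN N l ψ ≤ C :=
  avl_le l (fun _ _ => by positivity) h _

lemma EN_sq_le (N : ℕ) (l : List ℕ) (ψ : (ℕ → ℝ) → ℝ) : (EN N l ψ) ^ 2 ≤ EN N l (fun z => ψ z ^ 2) :=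
  avl_sq_le _ _ _

/-- slow variation along several steps -/
lemma sv_steps (φ : ℕ → ℝ) (N q R : ℕ) (δ : ℝ) (h : ∀ m < 2 * N, |φ (m + q) - φ m| ≤ δ) (hR : R * q ≤ N)
    (r : ℕ) (hr : r ≤ R) (m : ℕ) (hm : m < N) : |φ (m + r * q) - φ m| ≤ r * δ := by
  induction r with
  | zero => simp
  | succ r ih =>
    have ih' := ih (by omega)
    have h1 : m + r * q < 2 * N := by
      have : r * q ≤ R * q := Nat.mul_le_mul_right q (by omega)
      omega
    have h2 := h _ h1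
    have e : m + (r + 1) * q = m + r * q + q := by ring
    rw [e]
    have e2 : φ (m + r * q + q) - φ m = (φ (m + r * q + q) - φ (m + r * q)) + (φ (m + r * q) - φ m) := by ring
    rw [e2]
    refine (abs_add_le _ _).trans ?_
    push_cast
    linarith

/-- abstract van der Corput step -/
theorem step_vdc (h𝒰 : (𝒰 : Filter ℕ) ≤ atTop) (l : List ℕ) (q : ℕ → ℕ)
    (hq : ∀ ε : ℝ, 0 < ε → ∀ᶠ N in (𝒰 : Filter ℕ), (q N : ℝ) ≤ ε * N)
    (H : ℕ → ℕ → (ℕ → ℝ) → BM Y) (hH : ∀ N m z y, |(H N m z : Y → ℝ) y| ≤ 2)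
    (φ : ℕ → ℕ → ℝ) (hφ : ∀ N m, |φ N m| ≤ 1)
    (hsv : ∀ ε : ℝ, 0 < ε → ∀ᶠ N in (𝒰 : Filter ℕ), ∀ m < 2 * N, |φ N (m + q N) - φ N m| ≤ ε)
    (hΛ : ∀ ε : ℝ, 0 < ε → ∃ k0 : ℕ, ∀ k ≥ k0, ∀ᶠ N in (𝒰 : Filter ℕ),
      EN N l (fun z => av (range N) (fun m => I ν (H N m z * H N (m + k * q N) z))) ≤ ε)
    (ε : ℝ) (hε : 0 < ε) :
    ∀ᶠ N in (𝒰 : Filter ℕ),
      EN N l (fun z => I ν ((av (range N) (fun m => φ N m • H N m z)) ^ 2)) ≤ ε := by
  obtain ⟨k0, hk0⟩ := hΛ (ε / 4) (by positivity)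
  obtain ⟨R, hR1, hR2⟩ : ∃ R : ℕ, 0 < R ∧ 4 * (2 * (k0 : ℝ)) / R ≤ ε / 4 := by
    obtain ⟨R, hR⟩ := exists_nat_ge (32 * (k0 : ℝ) / ε)
    refine ⟨R + 1, by omega, ?_⟩
    rw [div_le_iff₀ (by positivity)]
    rw [div_le_iff₀ hε] at hR
    push_cast
    nlinarith
  have hR' : (0 : ℝ) < R := Nat.cast_pos.mpr hR1
  have hfin : ∀ᶠ N in (𝒰 : Filter ℕ), ∀ k ∈ Ico k0 R,
      EN N l (fun z => av (range N) (fun m => I ν (H N m z * H N (m + k * q N) z))) ≤ ε / 4 := by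
    rw [Filter.eventually_all_finset]
    intro k hk
    exact hk0 k (mem_Ico.mp hk).1
  have hN1 : ∀ᶠ N in (𝒰 : Filter ℕ), 0 < N := h𝒰 (eventually_gt_atTop 0)
  filter_upwards [hfin, hN1, hq (min (1 / R) (ε / (96 * R))) (by positivity),
    hsv (ε / (32 * R)) (by positivity)] with N hf hN hqN hsvN
  have hN' : (0 : ℝ) < N := Nat.cast_pos.mpr hN
  have hRq1 : (R : ℝ) * q N ≤ N := by
    have : (q N : ℝ) ≤ 1 / R * N := hqN.trans (mul_le_mul_of_nonneg_right (min_le_left _ _) hN'.le)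
    calc (R : ℝ) * q N ≤ R * (1 / R * N) := mul_le_mul_of_nonneg_left this hR'.le
      _ = N := by field_simp
  have hRq2 : 24 * ((R : ℝ) * q N / N) ≤ ε / 4 := by
    have h1 : (q N : ℝ) ≤ ε / (96 * R) * N := hqN.trans (mul_le_mul_of_nonneg_right (min_le_right _ _) hN'.le)
    have h2 : (R : ℝ) * q N / N ≤ ε / 96 := by
      rw [div_le_iff₀ hN']
      calc (R : ℝ) * q N ≤ R * (ε / (96 * R) * N) := mul_le_mul_of_nonneg_left h1 hR'.le
        _ = ε / 96 * N := by field_simp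
    linarith
  have hRq1' : R * q N ≤ N := by exact_mod_cast hRq1
  have key : ∀ z, I ν ((av (range N) (fun m => φ N m • H N m z)) ^ 2) ≤
      av (range R) (fun r => av (range R) (fun r' =>
        av (range N) (fun m => I ν (H N m z * H N (m + dst r r' * q N) z)))) + ε / 2 := by
    intro z
    have h1 := vdc (ν := ν) N R (q N) hN hR1 (fun m => H N m z) (fun m y => hH N m z y) (φ N) (hφ N)
      (ε / 32) (fun r hr m hm => by
        refine (sv_steps (φ N) N (q N) R _ hsvN hRq1' r hr.le m hm).trans ?_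
        have : (r : ℝ) ≤ R := by exact_mod_cast hr.le
        calc (r : ℝ) * (ε / (32 * R)) ≤ R * (ε / (32 * R)) := mul_le_mul_of_nonneg_right this (by positivity)
          _ = ε / 32 := by field_simp)
    linarith
  refine (EN_mono N l key).trans ?_
  rw [EN_add, EN_const hN, EN_av]
  have e : (fun r => EN N l (fun z => av (range R) (fun r' =>
        av (range N) (fun m => I ν (H N m z * H N (m + dst r r' * q N) z))))) =
      fun r => av (range R) (fun r' => EN N l (fun z =>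
        av (range N) (fun m => I ν (H N m z * H N (m + dst r r' * q N) z)))) := by
    funext r; exact EN_av _ _ _ _
  rw [e]
  have hx : ∀ k : ℕ, EN N l (fun z => av (range N) (fun m => I ν (H N m z * H N (m + k * q N) z))) ≤ 4 := by
    intro k
    refine EN_le hN l (fun z => ?_)
    refine av_le (by rw [nonempty_range_iff]; exact hN.ne') (fun m _ => ?_)
    refine (le_abs_self _).trans (abs_I_le_of_bdd ν (fun y => ?_))
    rw [BM.mul_ap, abs_mul]
    have h1 := hH N m z y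
    have h2 := hH N (m + k * q N) z y
    have h3 := abs_nonneg ((H N m z : Y → ℝ) y)
    have h4 := abs_nonneg ((H N (m + k * q N) z : Y → ℝ) y)
    nlinarith
  have hd := av_dst_le R k0 hR1
    (fun k => EN N l (fun z => av (range N) (fun m => I ν (H N m z * H N (m + k * q N) z)))) 4 (ε / 4)
    (by norm_num) (by positivity) hx (fun k hk hk' => hf k (mem_Ico.mpr ⟨hk', hk⟩))
  linarith

end Pool.Agent.H63.NS.P4
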