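import Pool.Agent.H63.NS.Pair

/-!
The two van der Corput steps (coordinate `0` along `q1`, coordinate `1` along `qs`).
-/

set_option autoImplicit false

open MeasureTheory Finset Filter Topology
open scoped BigOperators

namespace Pool.Agent.H63.NS.P4

open Pool.Agent.H63.NS

variable {𝒰 : Ultrafilter ℕ}
variable {Y : Type} [MeasurableSpace Y] {ν : Measure Y} [IsProbabilityMeasure ν]

/-- the common part of both steps: `g k x` the substitution, `c' N m` its parameter -/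
lemma stp_gen (h𝒰 : (𝒰 : Filter ℕ) ≤ atTop) (D : NumData 𝒰) (F : Flow ν)
    {ι : Type} [Fintype ι] (L : ι → (ℕ →₀ ℤ)) (f : ι → BM Y) (hf : ∀ j, F.Good (f j))
    (l : List ℕ) (c : ℕ) (hl : (c :: 0 :: 1 :: l).Nodup) (d : ℕ) (q : ℕ → ℕ)
    (hq : ∀ ε : ℝ, 0 < ε → ∀ᶠ N in (𝒰 : Filter ℕ), (q N : ℝ) ≤ ε * N)
    (hsvq : ∀ φ : ℕ → ℕ → ℝ, SV D φ →
      ∀ ε : ℝ, 0 < ε → ∀ᶠ N in (𝒰 : Filter ℕ), ∀ m < 2 * N, |φ N (m + q N) - φ N m| ≤ ε)
    (c' : ℕ → ℕ → ℝ) (C : ℝ) (hC : ∀ᶠ N in (𝒰 : Filter ℕ), ∀ m < N, |c' N m| ≤ C)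
    (hc1 : ∀ ε : ℝ, 0 < ε → ∀ᶠ N in (𝒰 : Filter ℕ), ∀ m < 2 * N, |c' N (m + D.q1 N) - c' N m| ≤ ε)
    (hcs : ∀ ε : ℝ, 0 < ε → ∀ᶠ N in (𝒰 : Filter ℕ), ∀ m < 2 * N, |c' N (m + D.qs N) - c' N m| ≤ ε)
    (g : ℕ → ℝ → (ℕ → ℝ) → (ℕ → ℝ))
    (hgu : ∀ (k : ℕ) (δ : ℝ), 0 < δ → ∃ δ' : ℝ, 0 < δ' ∧ ∀ x x' : ℝ, |x - x'| ≤ δ' →
      ∀ z j, |ev (L j) (g k x z) - ev (L j) (g k x' z)| ≤ δ)
    (hgd : ∀ (k : ℕ) (δ : ℝ), 0 < δ → ∀ᶠ N in (𝒰 : Filter ℕ), ∀ m < N, ∀ (z : ℕ → ℝ) (j : ι),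
      |ev (L j) (put (uu (m + k * q N)) (D.b N (m + k * q N)) z) -
        ev (L j) (g k (c' N m) (put (uu m) (D.b N m) z))| ≤ δ)
    (hUA : ∀ (k : ℕ) (x : ℝ), UA (fun z => TT F L f d (z c) z (g k x z)))
    (hCl : ∀ (k : ℕ) (x : ℝ), Cl D (c :: l) (fun z => TT F L f d (z c) z (g k x z)))
    (hID : ∀ ε : ℝ, 0 < ε → ∃ k0 : ℕ, ∀ k : ℕ, k0 ≤ k → ∀ᶠ N in (𝒰 : Filter ℕ),
      av (range N) (fun m => mn (c :: 0 :: 1 :: l) (fun z => TT F L f d (z c) z (g k (c' N m) z)) 0) ≤ ε) :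
    Stp D F L f l c d := by
  have hperm : (c :: 0 :: 1 :: l).Perm (0 :: 1 :: c :: l) :=
    (List.Perm.swap 0 c (1 :: l)).trans ((List.Perm.swap 1 c l).cons 0)
  have hl' : (0 :: 1 :: c :: l).Nodup := hperm.nodup_iff.mp hl
  have hc0 : c ≠ 0 := by rintro rfl; simp at hl
  have hc1' : c ≠ 1 := by rintro rfl; simp at hl
  intro φ hφ ε hε
  refine step_vdc (ν := ν) h𝒰 (c :: l) q hq
    (fun N m z => GG F L f (put (uu m) (D.b N m) z) - GG F L f (ad d (z c) (put (uu m) (D.b N m) z)))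
    (fun N m z y => GG_sub_bdd L hf _ _ y) φ hφ.bdd (hsvq φ hφ) ?_ ε hε
  intro ε hε
  obtain ⟨k0, hk0⟩ := hID (ε / 3) (by positivity)
  refine ⟨k0, fun k hk => ?_⟩
  obtain ⟨δ, hδ, HT⟩ := TT_unif F L f hf (ε / 3) (by positivity)
  have hun : ∀ ε : ℝ, 0 < ε → ∃ δ : ℝ, 0 < δ ∧ ∀ x x' : ℝ, |x - x'| ≤ δ → ∀ z : ℕ → ℝ,
      |TT F L f d (z c) z (g k x z) - TT F L f d (z c) z (g k x' z)| ≤ ε := by
    intro ε hε
    obtain ⟨δ, hδ, HT⟩ := TT_unif F L f hf ε hε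
    obtain ⟨δ', hδ', HG⟩ := hgu k δ hδ
    exact ⟨δ', hδ', fun x x' hx z => HT d (z c) z _ _ (fun j => HG x x' hx z j)⟩
  have hloc := loc D (c :: l) hl' h𝒰 c' C hC hc1 hcs (fun x z => TT F L f d (z c) z (g k x z))
    (fun x => hUA k x) hun (fun x => hCl k x) (ε / 3) (by positivity)
  have hN1 : ∀ᶠ N in (𝒰 : Filter ℕ), 0 < N := h𝒰 (eventually_gt_atTop 0)
  filter_upwards [hk0 k hk, hloc, hgd k δ hδ, hN1] with N h1 h2 h3 hN
  have hNn : (range N).Nonempty := by rw [nonempty_range_iff]; exact hN.ne'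
  have e1 : av (range N) (fun m => mn (0 :: 1 :: c :: l) (fun z => TT F L f d (z c) z (g k (c' N m) z)) 0) =
      av (range N) (fun m => mn (c :: 0 :: 1 :: l) (fun z => TT F L f d (z c) z (g k (c' N m) z)) 0) :=
    av_congr (fun m _ => (mn_perm hl hperm 0).symm)
  have h4 : |EN N (c :: l) (fun z => av (range N) (fun m => I ν
        ((GG F L f (put (uu m) (D.b N m) z) - GG F L f (ad d (z c) (put (uu m) (D.b N m) z))) *
        (GG F L f (put (uu (m + k * q N)) (D.b N (m + k * q N)) z) -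
          GG F L f (ad d (z c) (put (uu (m + k * q N)) (D.b N (m + k * q N)) z)))))) -
      EN N (c :: l) (fun z => av (range N) (fun m =>
        (fun z => TT F L f d (z c) z (g k (c' N m) z)) (put (uu m) (D.b N m) z)))| ≤ ε / 3 := by
    refine EN_close hN _ (fun z => ?_)
    rw [← av_sub]
    refine abs_av_le hNn (fun m hm => ?_)
    have h5 := HT d (z c) (put (uu m) (D.b N m) z) _ _ (fun j => h3 m (mem_range.mp hm) z j)
    have e2 : (put (uu m) (D.b N m) z) c = z c := put_ne _ _ _ hc0 hc1'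
    simp only [e2]
    exact h5
  rw [e1] at h2
  rw [abs_le] at h2 h4
  linarith [h2.1, h2.2, h4.1, h4.2]

/-- the step in the coordinate `0` -/
theorem stp0 (hW : WtPair) (h𝒰 : (𝒰 : Filter ℕ) ≤ atTop) (D : NumData 𝒰) (F : Flow ν)
    (hUA : ∀ ψ : (ℕ → ℝ) → ℝ, Adm F ψ → UA ψ)
    {ι : Type} [Fintype ι] [Nonempty ι]
    (L : ι → (ℕ →₀ ℤ)) (f : ι → BM Y) (hf : ∀ j, F.Good (f j)) (hO : ∀ j, L j 0 ≠ 0 ∨ L j 1 ≠ 0)
    (l : List ℕ) (c : ℕ) (hl : (c :: 0 :: 1 :: l).Nodup) (hs : Sup (0 :: 1 :: l) L)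
    (ih : IH D F (c :: l) (wt L))
    (hID : ∀ ε : ℝ, 0 < ε → ∃ k0 : ℕ, ∀ k : ℕ, k0 ≤ k → ∀ x : ℝ, ∀ z : ℕ → ℝ,
      |mn (c :: 0 :: 1 :: l) (fun z => TT F L f 0 (z c) z (gk k x z)) z| ≤ ε) :
    Stp D F L f l c 0 := by
  -- a bound for the coefficients
  obtain ⟨B, hB0, hB⟩ : ∃ B : ℝ, 0 < B ∧ ∀ j, |(L j 0 : ℝ)| + |(L j 1 : ℝ)| ≤ B := by
    refine ⟨1 + ∑ j, (|(L j 0 : ℝ)| + |(L j 1 : ℝ)|), ?_, fun j => ?_⟩
    · have : 0 ≤ ∑ j, (|(L j 0 : ℝ)| + |(L j 1 : ℝ)|) := sum_nonneg (fun j _ => by positivity)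
      linarith
    · have := single_le_sum (f := fun j => |(L j 0 : ℝ)| + |(L j 1 : ℝ)|) (fun j _ => by positivity)
        (mem_univ j)
      linarith
  have hbound : ∀ (j : ι) (a b δ : ℝ), |a| ≤ δ / B → |b| ≤ δ / B → |(L j 0 : ℝ) * a + (L j 1 : ℝ) * b| ≤ δ := by
    intro j a b δ ha hb
    refine (abs_add_le _ _).trans ?_
    rw [abs_mul, abs_mul]
    have h1 : |(L j 0 : ℝ)| * |a| ≤ |(L j 0 : ℝ)| * (δ / B) := mul_le_mul_of_nonneg_left ha (abs_nonneg _)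
    have h2 : |(L j 1 : ℝ)| * |b| ≤ |(L j 1 : ℝ)| * (δ / B) := mul_le_mul_of_nonneg_left hb (abs_nonneg _)
    have h3 : (|(L j 0 : ℝ)| + |(L j 1 : ℝ)|) * (δ / B) ≤ B * (δ / B) :=
      mul_le_mul_of_nonneg_right (hB j) ((abs_nonneg _).trans ha)
    have h4 : B * (δ / B) = δ := by field_simp
    nlinarith
  have hTT := fun (k : ℕ) (x : ℝ) => cl_TT hW D F hUA L f hf hO l c hl hs ih 0
    (fun j => Finsupp.single 1 (L j 0 * k)) (fun j => L j 0 * (k ^ 2 * x) + L j 1 * (2 * k * x))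
    (fun j => by rw [Finsupp.single_apply, if_neg one_ne_zero])
    (fun j h => by rw [h, zero_mul, Finsupp.single_zero]; rfl)
    (fun j e he => by
      have : e ≠ 1 := by rintro rfl; simp at he
      rw [Finsupp.single_apply, if_neg (Ne.symm this)])
    (gk k x) (affI_gk k x)
    (fun z j => by rw [ev_gk, ev_add, ev_single]; push_cast; ring)
  refine stp_gen h𝒰 D F L f hf l c hl 0 D.q1 D.q1_small (fun φ hφ => hφ.q1) D.c D.C ?_ D.c_q1 D.c_qs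
    (fun k x z => gk k x z) ?_ ?_ (fun k x => (hTT k x).1) (fun k x => (hTT k x).2) ?_
  · filter_upwards [D.bdd] with N h m hm
    exact (h m (by omega)).1
  · intro k δ hδ
    refine ⟨δ / B / (k ^ 2 + 2 * k + 1), by positivity, fun x x' hx z j => ?_⟩
    rw [ev_gk, ev_gk]
    have e : ev (L j) z + (L j 0 : ℝ) * (k * z 1 + k ^ 2 * x) + (L j 1 : ℝ) * (2 * k * x) -
        (ev (L j) z + (L j 0 : ℝ) * (k * z 1 + k ^ 2 * x') + (L j 1 : ℝ) * (2 * k * x')) =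
        (L j 0 : ℝ) * (k ^ 2 * (x - x')) + (L j 1 : ℝ) * (2 * k * (x - x')) := by ring
    rw [e]
    have hk : (0 : ℝ) ≤ k := Nat.cast_nonneg k
    rw [le_div_iff₀ (by positivity)] at hx
    refine hbound j _ _ δ ?_ ?_
    · rw [abs_mul, abs_of_nonneg (by positivity : (0 : ℝ) ≤ (k : ℝ) ^ 2)]
      refine le_trans ?_ hx
      nlinarith [abs_nonneg (x - x'), mul_nonneg hk (abs_nonneg (x - x'))]
    · rw [abs_mul, abs_of_nonneg (by positivity : (0 : ℝ) ≤ 2 * (k : ℝ))]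
      refine le_trans ?_ hx
      nlinarith [abs_nonneg (x - x'), mul_nonneg (sq_nonneg (k : ℝ)) (abs_nonneg (x - x'))]
  · intro k δ hδ
    filter_upwards [D.u_q1 k (δ / B) (by positivity), D.b_q1 k (δ / B) (by positivity)] with N h1 h2 m hm z j
    rw [ev_put, ev_gk, ev_put, put_one]
    have e : ev (L j) z + (L j 0 : ℝ) * (uu (m + k * D.q1 N) - z 0) +
        (L j 1 : ℝ) * (D.b N (m + k * D.q1 N) - z 1) -
        (ev (L j) z + (L j 0 : ℝ) * (uu m - z 0) + (L j 1 : ℝ) * (D.b N m - z 1) +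
          (L j 0 : ℝ) * (k * D.b N m + k ^ 2 * D.c N m) + (L j 1 : ℝ) * (2 * k * D.c N m)) =
        (L j 0 : ℝ) * (uu (m + k * D.q1 N) - (uu m + k * D.b N m + k ^ 2 * D.c N m)) +
        (L j 1 : ℝ) * (D.b N (m + k * D.q1 N) - (D.b N m + 2 * k * D.c N m)) := by ring
    rw [e]
    exact hbound j _ _ δ (h1 m (by omega)) (h2 m (by omega))
  · intro ε hε
    obtain ⟨k0, hk0⟩ := hID ε hε
    refine ⟨k0, fun k hk => ?_⟩
    have hN1 : ∀ᶠ N in (𝒰 : Filter ℕ), 0 < N := h𝒰 (eventually_gt_atTop 0)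
    filter_upwards [hN1] with N hN
    refine av_le (by rw [nonempty_range_iff]; exact hN.ne') (fun m _ => ?_)
    exact (le_abs_self _).trans (hk0 k hk _ _)

/-- the step in the coordinate `1` -/
theorem stp1 (hW : WtPair) (h𝒰 : (𝒰 : Filter ℕ) ≤ atTop) (D : NumData 𝒰) (F : Flow ν)
    (hUA : ∀ ψ : (ℕ → ℝ) → ℝ, Adm F ψ → UA ψ)
    {ι : Type} [Fintype ι] [Nonempty ι]
    (L : ι → (ℕ →₀ ℤ)) (f : ι → BM Y) (hf : ∀ j, F.Good (f j)) (h0 : ∀ j, L j 0 = 0)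
    (hO : ∀ j, L j 1 ≠ 0)
    (l : List ℕ) (c : ℕ) (hl : (c :: 0 :: 1 :: l).Nodup) (hs : Sup (0 :: 1 :: l) L)
    (ih : IH D F (c :: l) (wt L))
    (hID : ∃ (ρ : ℝ → ℝ) (m : ℝ), (∀ a, |ρ a| ≤ 1) ∧
      (∀ ε : ℝ, 0 < ε → ∃ δ : ℝ, 0 < δ ∧ ∀ a a' : ℝ, |a - a'| ≤ δ → |ρ a - ρ a'| ≤ ε) ∧
      (∀ ε : ℝ, 0 < ε → ∃ L : ℕ, ∀ k ≥ L, ∀ K ≥ L, ∀ x : ℝ,
        |av (range (K * 2 ^ k)) (fun i => ρ (x + (i : ℝ) / 2 ^ k)) - m| ≤ ε) ∧
      ∀ a : ℝ, mn (c :: 0 :: 1 :: l) (fun z => TT F L f 1 (z c) z (ad 1 a z)) 0 = 2 * (ρ a - m)) :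
    Stp D F L f l c 1 := by
  obtain ⟨B, hB0, hB⟩ : ∃ B : ℝ, 0 < B ∧ ∀ j, |(L j 1 : ℝ)| ≤ B := by
    refine ⟨1 + ∑ j, |(L j 1 : ℝ)|, ?_, fun j => ?_⟩
    · have : 0 ≤ ∑ j, |(L j 1 : ℝ)| := sum_nonneg (fun j _ => by positivity)
      linarith
    · have := single_le_sum (f := fun j => |(L j 1 : ℝ)|) (fun j _ => by positivity) (mem_univ j)
      linarith
  have hbound : ∀ (j : ι) (b δ : ℝ), |b| ≤ δ / B → |(L j 1 : ℝ) * b| ≤ δ := by
    intro j b δ hb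
    rw [abs_mul]
    calc |(L j 1 : ℝ)| * |b| ≤ B * (δ / B) := mul_le_mul (hB j) hb (abs_nonneg _) hB0.le
      _ = δ := by field_simp
  have hTT := fun (k : ℕ) (x : ℝ) => cl_TT hW D F hUA L f hf (fun j => Or.inr (hO j)) l c hl hs ih 1
    (fun _ => 0) (fun j => L j 1 * (k * x)) (fun _ => rfl) (fun _ _ => rfl) (fun _ _ _ => rfl)
    (fun z => ad 1 (k * x) z) (affI_ad 1 (k * x))
    (fun z j => by rw [ev_ad, add_zero])
  refine stp_gen h𝒰 D F L f hf l c hl 1 D.qs D.qs_small (fun φ hφ => hφ.qs) D.η D.C ?_ D.e_q1 D.e_qs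
    (fun k x z => ad 1 (k * x) z) ?_ ?_ (fun k x => (hTT k x).1) (fun k x => (hTT k x).2) ?_
  · filter_upwards [D.bdd] with N h m hm
    exact (h m (by omega)).2.1
  · intro k δ hδ
    refine ⟨δ / B / (k + 1), by positivity, fun x x' hx z j => ?_⟩
    rw [ev_ad, ev_ad]
    have e : ev (L j) z + (L j 1 : ℝ) * (k * x) - (ev (L j) z + (L j 1 : ℝ) * (k * x')) =
        (L j 1 : ℝ) * (k * (x - x')) := by ring
    rw [e]
    have hk : (0 : ℝ) ≤ k := Nat.cast_nonneg k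
    rw [le_div_iff₀ (by positivity)] at hx
    refine hbound j _ δ ?_
    rw [abs_mul, abs_of_nonneg hk]
    refine le_trans ?_ hx
    nlinarith [abs_nonneg (x - x')]
  · intro k δ hδ
    filter_upwards [D.b_qs k (δ / B) (by positivity)] with N h2 m hm z j
    rw [ev_put, ev_ad, ev_put, h0 j]
    have e : ev (L j) z + ((0 : ℤ) : ℝ) * (uu (m + k * D.qs N) - z 0) +
        (L j 1 : ℝ) * (D.b N (m + k * D.qs N) - z 1) -
        (ev (L j) z + ((0 : ℤ) : ℝ) * (uu m - z 0) + (L j 1 : ℝ) * (D.b N m - z 1) +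
          (L j 1 : ℝ) * (k * D.η N m)) =
        (L j 1 : ℝ) * (D.b N (m + k * D.qs N) - (D.b N m + k * D.η N m)) := by push_cast; ring
    rw [e]
    exact hbound j _ δ (h2 m (by omega))
  · obtain ⟨ρ, m0, h1, h2, h3, h4⟩ := hID
    intro ε hε
    obtain ⟨k0, hk0⟩ := D.ed ρ m0 h1 h2 h3 (ε / 2) (by positivity)
    refine ⟨k0, fun k hk => ?_⟩
    have hN1 : ∀ᶠ N in (𝒰 : Filter ℕ), 0 < N := h𝒰 (eventually_gt_atTop 0)
    filter_upwards [hk0 k hk, hN1] with N h5 hN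
    have hNn : (range N).Nonempty := by rw [nonempty_range_iff]; exact hN.ne'
    have e : av (range N) (fun m => mn (c :: 0 :: 1 :: l)
        (fun z => TT F L f 1 (z c) z (ad 1 (k * D.η N m) z)) 0) =
        2 * (av (range N) (fun n => ρ (k * D.η N n)) - m0) := by
      have e1 : (fun m => mn (c :: 0 :: 1 :: l)
          (fun z => TT F L f 1 (z c) z (ad 1 (k * D.η N m) z)) 0) =
          fun m => 2 * (ρ (k * D.η N m) - m0) := by
        funext m; exact h4 _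
      rw [e1, av_mul, av_sub, av_const hNn]
    rw [e]
    have := (abs_le.mp h5).2
    linarith

end Pool.Agent.H63.NS.P4
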