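import Pool.Agent.H63.NS.Pos

/-!
van der Corput inequality in finite form.
-/

set_option autoImplicit false

open MeasureTheory Finset
open scoped BigOperators

namespace Pool.Agent.H63.NS.P4

open Pool.Agent.H63.NS

variable {Y : Type} [MeasurableSpace Y] {ν : Measure Y} [IsProbabilityMeasure ν]

lemma bm_av_ap {ι : Type*} (s : Finset ι) (A : ι → BM Y) (y : Y) :
    ((av s A : BM Y) : Y → ℝ) y = av s (fun i => (A i : Y → ℝ) y) := by
  unfold av
  rw [BM.smul_ap, BM.sum_ap, smul_eq_mul]

lemma I_av {ι : Type*} (s : Finset ι) (A : ι → BM Y) : I ν (av s A) = av s (fun i => I ν (A i)) :=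
  map_av _ _ _

/-- `|m - m'|` as a natural number -/
def dst (r r' : ℕ) : ℕ := (r - r') + (r' - r)

lemma vdc (N R q : ℕ) (hN : 0 < N) (hR : 0 < R) (H : ℕ → BM Y) (hH : ∀ m y, |(H m : Y → ℝ) y| ≤ 2)
    (φ : ℕ → ℝ) (hφ : ∀ m, |φ m| ≤ 1) (δ : ℝ)
    (hsv : ∀ r < R, ∀ m < N, |φ (m + r * q) - φ m| ≤ δ) :
    I ν ((av (range N) (fun m => φ m • H m)) ^ 2) ≤
      av (range R) (fun r => av (range R) (fun r' =>
        av (range N) (fun m => I ν (H m * H (m + dst r r' * q))))) +
      (24 * (R * q / N) + 8 * δ) := by
  have hN' : (0 : ℝ) < N := Nat.cast_pos.mpr hN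
  have hRn : (range R).Nonempty := by rw [nonempty_range_iff]; exact hR.ne'
  have hNn : (range N).Nonempty := by rw [nonempty_range_iff]; exact hN.ne'
  set E : ℝ := 4 * (R * q / N) + 2 * δ with hE
  -- pointwise estimate
  have key : ∀ y, (((av (range N) (fun m => φ m • H m)) ^ 2 : BM Y) : Y → ℝ) y ≤
      ((av (range N) (fun m => av (range R) (fun r => av (range R) (fun r' =>
        H (m + r * q) * H (m + r' * q)))) + (4 * E) • (1 : BM Y) : BM Y) : Y → ℝ) y := by
    intro y
    rw [BM.pow_ap, bm_av_ap, BM.add_ap, BM.smul_ap, BM.one_ap, bm_av_ap, mul_one]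
    set h : ℕ → ℝ := fun m => (H m : Y → ℝ) y with hh
    have hb : ∀ m, |h m| ≤ 2 := fun m => hH m y
    have e1 : (fun i => ((φ i • H i : BM Y) : Y → ℝ) y) = fun i => φ i * h i := by
      funext i; rw [BM.smul_ap]
    have e2 : (fun i => ((av (range R) (fun r => av (range R) (fun r' =>
        H (i + r * q) * H (i + r' * q))) : BM Y) : Y → ℝ) y) =
        fun i => (av (range R) (fun r => h (i + r * q))) ^ 2 := by
      funext i
      rw [bm_av_ap]
      have e3 : (fun r => ((av (range R) (fun r' => H (i + r * q) * H (i + r' * q)) : BM Y) : Y → ℝ) y) =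
          fun r => h (i + r * q) * av (range R) (fun r' => h (i + r' * q)) := by
        funext r
        rw [bm_av_ap, ← av_mul]
        rfl
      rw [e3, av_mul_right, sq]
    rw [e1, e2]
    set a : ℝ := av (range N) (fun i => φ i * h i)
    set a' : ℝ := av (range N) (fun i => φ i * av (range R) (fun r => h (i + r * q))) with ha'
    have hp : ∀ i, |φ i * h i| ≤ 2 := fun i => by
      rw [abs_mul]
      have := hφ i; have := hb i; have := abs_nonneg (φ i); have := abs_nonneg (h i)
      nlinarith
    have haa : |a| ≤ 2 := abs_av_le hNn (fun i _ => hp i)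
    have hbr : ∀ i, |av (range R) (fun r => h (i + r * q))| ≤ 2 := fun i => abs_av_le hRn (fun r _ => hb _)
    have haa' : |a'| ≤ 2 := abs_av_le hNn (fun i _ => by
      rw [abs_mul]
      have := hφ i; have := hbr i; have := abs_nonneg (φ i)
      have := abs_nonneg (av (range R) (fun r => h (i + r * q)))
      nlinarith)
    have hsw : a' = av (range R) (fun r => av (range N) (fun i => φ i * h (i + r * q))) := by
      rw [ha', av_comm]
      refine av_congr (fun i _ => ?_)
      rw [av_mul]
    have hdiff : |a - a'| ≤ E := by
      have e4 : a - a' = av (range R) (fun r => a - av (range N) (fun i => φ i * h (i + r * q))) := by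
        rw [av_sub, av_const hRn, hsw]
      rw [e4]
      refine abs_av_le hRn (fun r hr => ?_)
      have hr' : r < R := mem_range.mp hr
      have s1 := abs_av_shift_le N (r * q) (fun i => φ i * h i) 2 hp
      have s2 : |av (range N) (fun i => φ (i + r * q) * h (i + r * q)) -
          av (range N) (fun i => φ i * h (i + r * q))| ≤ 2 * δ := by
        rw [← av_sub]
        refine abs_av_le hNn (fun i hi => ?_)
        rw [← sub_mul, abs_mul]
        have h1 := hsv r hr' i (mem_range.mp hi)
        have h2 := hb (i + r * q)
        have h3 := abs_nonneg (φ (i + r * q) - φ i)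
        have h4 := abs_nonneg (h (i + r * q))
        nlinarith
      have s3 : 2 * 2 * ((r * q : ℕ) : ℝ) / N ≤ 4 * (R * q / N) := by
        rw [mul_div_assoc]
        have : ((r * q : ℕ) : ℝ) ≤ R * q := by
          push_cast
          exact mul_le_mul_of_nonneg_right (by exact_mod_cast hr'.le) (Nat.cast_nonneg _)
        have h5 : ((r * q : ℕ) : ℝ) / N ≤ R * q / N := div_le_div_of_nonneg_right this hN'.le
        linarith
      calc |a - av (range N) (fun i => φ i * h (i + r * q))|
          = |-(av (range N) (fun i => φ (i + r * q) * h (i + r * q)) - a) +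
            (av (range N) (fun i => φ (i + r * q) * h (i + r * q)) -
              av (range N) (fun i => φ i * h (i + r * q)))| := by congr 1; ring
        _ ≤ 2 * 2 * ((r * q : ℕ) : ℝ) / N + 2 * δ := by
            refine (abs_add_le _ _).trans (add_le_add ?_ s2)
            rw [abs_neg]; exact s1
        _ ≤ E := by rw [hE]; linarith
    have h6 : a ^ 2 ≤ a' ^ 2 + 4 * E := by
      have h7 : a ^ 2 - a' ^ 2 = (a - a') * (a + a') := by ring
      have h8 : |(a - a') * (a + a')| ≤ E * 4 := by
        rw [abs_mul]
        refine mul_le_mul hdiff ((abs_add_le _ _).trans (by linarith)) (abs_nonneg _) ?_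
        exact (abs_nonneg _).trans hdiff
      have := le_abs_self ((a - a') * (a + a'))
      linarith
    have h9 : a' ^ 2 ≤ av (range N) (fun i => (av (range R) (fun r => h (i + r * q))) ^ 2) := by
      refine (av_sq_le _ _).trans (av_mono (fun i _ => ?_))
      rw [mul_pow]
      have h1 : φ i ^ 2 ≤ 1 := by
        rw [← sq_abs]; have := hφ i; have := abs_nonneg (φ i); nlinarith
      nlinarith [sq_nonneg (av (range R) (fun r => h (i + r * q)))]
    linarith
  have h1 := I_mono ν key
  rw [map_add, map_smul, I_one, smul_eq_mul, mul_one, I_av] at h1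
  have e5 : av (range N) (fun m => I ν (av (range R) (fun r => av (range R) (fun r' =>
        H (m + r * q) * H (m + r' * q))))) =
      av (range R) (fun r => av (range R) (fun r' => av (range N) (fun m =>
        I ν (H (m + r * q) * H (m + r' * q))))) := by
    have : ∀ m, I ν (av (range R) (fun r => av (range R) (fun r' =>
        H (m + r * q) * H (m + r' * q)))) = av (range R) (fun r => av (range R) (fun r' =>
        I ν (H (m + r * q) * H (m + r' * q)))) := by
      intro m
      rw [I_av]
      exact av_congr (fun r _ => I_av _ _)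
    simp_rw [this]
    rw [av_comm]
    exact av_congr (fun r _ => av_comm _ _ _)
  rw [e5] at h1
  have h2 : ∀ r ∈ range R, ∀ r' ∈ range R,
      av (range N) (fun m => I ν (H (m + r * q) * H (m + r' * q))) ≤
      av (range N) (fun m => I ν (H m * H (m + dst r r' * q))) + 8 * (R * q / N) := by
    intro r hr r' hr'
    have hbd : ∀ (k m : ℕ), |I ν (H m * H (m + k))| ≤ 4 := fun k m =>
      abs_I_le_of_bdd ν (fun y => by
        rw [BM.mul_ap, abs_mul]
        have := hH m y; have := hH (m + k) y
        have := abs_nonneg ((H m : Y → ℝ) y); have := abs_nonneg ((H (m + k) : Y → ℝ) y)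
        nlinarith)
    have gen : ∀ (r r' : ℕ), r ∈ range R → r ≤ r' →
        av (range N) (fun m => I ν (H (m + r * q) * H (m + r' * q))) ≤
        av (range N) (fun m => I ν (H m * H (m + dst r r' * q))) + 8 * (R * q / N) := by
      intro r r' hr hle
      have e6 : (fun m => I ν (H (m + r * q) * H (m + r' * q))) =
          fun m => (fun m => I ν (H m * H (m + dst r r' * q))) (m + r * q) := by
        funext m
        have : m + r' * q = m + r * q + dst r r' * q := by
          unfold dst
          obtain ⟨t, rfl⟩ := Nat.exists_eq_add_of_le hle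
          have : r - (r + t) + (r + t - r) = t := by omega
          rw [this]; ring
        simp only [this]
      rw [e6]
      have s1 := abs_av_shift_le N (r * q) (fun m => I ν (H m * H (m + dst r r' * q))) 4
        (fun m => hbd _ m)
      have s3 : 2 * 4 * ((r * q : ℕ) : ℝ) / N ≤ 8 * (R * q / N) := by
        rw [mul_div_assoc]
        have : ((r * q : ℕ) : ℝ) ≤ R * q := by
          push_cast
          exact mul_le_mul_of_nonneg_right (by exact_mod_cast (mem_range.mp hr).le) (Nat.cast_nonneg _)
        have h5 : ((r * q : ℕ) : ℝ) / N ≤ R * q / N := div_le_div_of_nonneg_right this hN'.le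
        linarith
      have := le_abs_self (av (range N) (fun m => (fun m => I ν (H m * H (m + dst r r' * q))) (m + r * q)) -
        av (range N) (fun m => I ν (H m * H (m + dst r r' * q))))
      linarith
    rcases le_total r r' with hle | hle
    · exact gen r r' hr hle
    · have e7 : (fun m => I ν (H (m + r * q) * H (m + r' * q))) =
          fun m => I ν (H (m + r' * q) * H (m + r * q)) := by
        funext m; rw [mul_comm]
      have e8 : dst r r' = dst r' r := by unfold dst; omega
      rw [e7, e8]
      exact gen r' r hr' hle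
  have h3 : av (range R) (fun r => av (range R) (fun r' => av (range N) (fun m =>
        I ν (H (m + r * q) * H (m + r' * q))))) ≤
      av (range R) (fun r => av (range R) (fun r' =>
        av (range N) (fun m => I ν (H m * H (m + dst r r' * q))))) + 8 * (R * q / N) := by
    have : av (range R) (fun r => av (range R) (fun r' =>
        av (range N) (fun m => I ν (H m * H (m + dst r r' * q))))) + 8 * (R * q / N) =
        av (range R) (fun r => av (range R) (fun r' =>
        av (range N) (fun m => I ν (H m * H (m + dst r r' * q))) + 8 * (R * q / N))) := by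
      have : (fun r => av (range R) (fun r' =>
        av (range N) (fun m => I ν (H m * H (m + dst r r' * q))) + 8 * (R * q / N))) =
        fun r => av (range R) (fun r' =>
        av (range N) (fun m => I ν (H m * H (m + dst r r' * q)))) + 8 * (R * q / N) := by
        funext r; rw [av_add, av_const hRn]
      rw [this, av_add, av_const hRn]
    rw [this]
    exact av_mono (fun r hr => av_mono (fun r' hr' => h2 r hr r' hr'))
  rw [hE] at h1
  linarith

/-- counting pairs with small difference -/
lemma av_dst_le (R k0 : ℕ) (hR : 0 < R) (x : ℕ → ℝ) (C ε : ℝ) (hC : 0 ≤ C) (hε : 0 ≤ ε) (h1 : ∀ k, x k ≤ C)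
    (h2 : ∀ k < R, k0 ≤ k → x k ≤ ε) :
    av (range R) (fun r => av (range R) (fun r' => x (dst r r'))) ≤ ε + C * (2 * k0) / R := by
  classical
  have hR' : (0 : ℝ) < R := Nat.cast_pos.mpr hR
  have hRn : (range R).Nonempty := by rw [nonempty_range_iff]; exact hR.ne'
  refine av_le hRn (fun r hr => ?_)
  have hpt : ∀ r' ∈ range R, x (dst r r') ≤ ε + C * (if dst r r' < k0 then 1 else 0) := by
    intro r' hr'
    by_cases h : dst r r' < k0
    · rw [if_pos h]; have := h1 (dst r r'); linarith
    · rw [if_neg h]
      have : dst r r' < R := by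
        have := mem_range.mp hr; have := mem_range.mp hr'; unfold dst; omega
      have := h2 _ this (not_lt.mp h); linarith
  refine (av_mono hpt).trans ?_
  rw [av_add, av_const hRn, av_mul]
  have h3 : av (range R) (fun r' => if dst r r' < k0 then (1 : ℝ) else 0) ≤ 2 * k0 / R := by
    unfold av
    rw [smul_eq_mul, card_range, sum_boole, inv_mul_le_iff₀ hR']
    have hsub : (range R).filter (fun r' => dst r r' < k0) ⊆ Ico (r - k0) (r + k0) := by
      intro r' h
      rw [mem_filter] at h
      rw [mem_Ico]
      have := h.2
      unfold dst at this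
      omega
    have hc := card_le_card hsub
    rw [Nat.card_Ico] at hc
    have hc2 : ((range R).filter (fun r' => dst r r' < k0)).card ≤ 2 * k0 := by omega
    have : (((range R).filter (fun r' => dst r r' < k0)).card : ℝ) ≤ 2 * k0 := by exact_mod_cast hc2
    calc _ ≤ 2 * (k0 : ℝ) := this
      _ = R * (2 * k0 / R) := by field_simp
  have h4 := mul_le_mul_of_nonneg_left h3 hC
  have : C * (2 * ↑k0 / ↑R) = C * (2 * k0) / R := by ring
  linarith

end Pool.Agent.H63.NS.P4
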